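import Pool.Agent.R952.BK.Defs

set_option autoImplicit false

namespace R952.BK
open Set Metric Filter

theorem fxc_summable (a : ℕ → Bool) :
    Summable (fun n : ℕ => (if a n then (1 / 2 : ℝ) ^ (n + 1) else 0)) := by
  have h : Summable (fun n : ℕ => (1 / 2 : ℝ) ^ (n + 1)) := by
    have := (summable_geometric_two).mul_left (1 / 2 : ℝ)
    refine this.congr fun n => ?_
    rw [pow_succ]; ring
  refine Summable.of_nonneg_of_le (fun n => ?_) (fun n => ?_) h
  · split_ifs <;> positivity
  · split_ifs
    · exact le_rfl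
    · positivity

theorem fx_cons (a : ℕ → Bool) :
    fx a = ((if a 0 then 1 else 0) + fx (fun n => a (n + 1))) / 2 := by
  unfold fx
  rw [(fxc_summable a).tsum_eq_zero_add]
  have h : (∑' n : ℕ, (if a (n + 1) then (1 / 2 : ℝ) ^ (n + 1 + 1) else 0)) =
      (∑' n : ℕ, (if a (n + 1) then (1 / 2 : ℝ) ^ (n + 1) else 0)) / 2 := by
    rw [← tsum_div_const]
    congr 1
    funext n
    split_ifs
    · rw [pow_succ]; ring
    · simp
  rw [h]
  split_ifs <;> ring

theorem fxc_nonneg (a : ℕ → Bool) : 0 ≤ fx a := by
  unfold fx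
  refine tsum_nonneg fun n => ?_
  split_ifs <;> positivity

theorem geo_sum : (∑' n : ℕ, (1 / 2 : ℝ) ^ (n + 1)) = 1 := by
  have h : (fun n : ℕ => (1 / 2 : ℝ) ^ (n + 1)) = fun n : ℕ => (1 / 2 : ℝ) * (1 / 2 : ℝ) ^ n := by
    funext n; rw [pow_succ]; ring
  rw [h, tsum_mul_left, tsum_geometric_two]; norm_num

theorem geoc_summable : Summable (fun n : ℕ => (1 / 2 : ℝ) ^ (n + 1)) := by
  have := (summable_geometric_two).mul_left (1 / 2 : ℝ)
  refine this.congr fun n => ?_
  rw [pow_succ]; ring

theorem fxc_le_one (a : ℕ → Bool) : fx a ≤ 1 := by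
  rw [← geo_sum]
  unfold fx
  refine (fxc_summable a).tsum_le_tsum (fun n => ?_) geoc_summable
  split_ifs
  · exact le_rfl
  · positivity

theorem fx_lt_one (a : ℕ → Bool) (n : ℕ) (h : a n = false) : fx a < 1 := by
  rw [← geo_sum]
  unfold fx
  refine (fxc_summable a).tsum_lt_tsum (i := n) (fun m => ?_) ?_ geoc_summable
  · split_ifs
    · exact le_rfl
    · positivity
  · simp only [h]
    simp

theorem fx_diff (R : ℕ) : ∀ (a b : ℕ → Bool), (∀ n, n < R → a n = b n) →
    |fx a - fx b| ≤ (1 / 2 : ℝ) ^ R := by
  induction R with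
  | zero =>
    intro a b _
    have h1 := fxc_nonneg a
    have h2 := fxc_nonneg b
    have h3 := fxc_le_one a
    have h4 := fxc_le_one b
    rw [pow_zero, abs_le]
    constructor <;> linarith
  | succ R ih =>
    intro a b h
    have h0 := h 0 (Nat.succ_pos R)
    have h1 := ih (fun n => a (n + 1)) (fun n => b (n + 1)) (fun n hn => h (n + 1) (by omega))
    rw [fx_cons a, fx_cons b, h0]
    have : ((if b 0 then (1:ℝ) else 0) + fx (fun n => a (n + 1))) / 2 -
        ((if b 0 then (1:ℝ) else 0) + fx (fun n => b (n + 1))) / 2 =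
        (fx (fun n => a (n + 1)) - fx (fun n => b (n + 1))) / 2 := by ring
    rw [this, abs_div, pow_succ]
    simp only [abs_two]
    linarith

theorem sh_sh (k l : ℤ) (u : Seq) : sh k (sh l u) = sh (k + l) u := by
  funext n; simp only [sh]; congr 1; ring

theorem pr_mem (u : Seq) : pr u ∈ X :=
  ⟨⟨fxc_nonneg _, fxc_le_one _⟩, ⟨fxc_nonneg _, fxc_le_one _⟩⟩

theorem pr_dist (u v : Seq) (R : ℕ) (h : ∀ n : ℤ, -(R : ℤ) < n → n ≤ R → u n = v n) :
    dist (pr u) (pr v) ≤ (1 / 2 : ℝ) ^ R := by
  rw [Prod.dist_eq]
  refine max_le ?_ ?_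
  · rw [Real.dist_eq]
    refine fx_diff R _ _ fun n hn => h _ (by omega) (by omega)
  · rw [Real.dist_eq]
    refine fx_diff R _ _ fun n hn => h _ (by omega) (by omega)

/-- one step of the baker's map on a periodic sequence -/
theorem B_pr (u : Seq) (h : u 1 = true ∨ ∃ n : ℕ, u ((n : ℤ) + 2) = false) :
    B (pr u) = pr (sh 1 u) := by
  have hx : (pr u).1 = ((if u 1 then 1 else 0) + (pr (sh 1 u)).1) / 2 := by
    have := fx_cons (fun n : ℕ => u ((n : ℤ) + 1))
    simp only [Nat.cast_zero, zero_add, Nat.cast_add, Nat.cast_one] at this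
    exact this
  have hy : (pr (sh 1 u)).2 = ((if u 1 then 1 else 0) + (pr u).2) / 2 := by
    have := fx_cons (fun n : ℕ => (sh 1 u) (-(n : ℤ)))
    simp only [sh, Nat.cast_zero, neg_zero, zero_add, Nat.cast_add, Nat.cast_one] at this
    have e : (fun n : ℕ => u (-((n : ℤ) + 1) + 1)) = fun n : ℕ => u (-(n : ℤ)) := by
      funext n; congr 1; ring
    rw [e] at this
    exact this
  have h1 := (pr_mem (sh 1 u)).1.1
  have h2 := (pr_mem (sh 1 u)).1.2
  unfold B
  by_cases hu : u 1 = true
  · rw [hu] at hx hy
    simp only [if_true] at hx hy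
    rw [if_neg (by rw [hx]; linarith)]
    ext
    · simp only; rw [hx]; ring
    · simp only; rw [hy]; ring
  · simp only [Bool.not_eq_true] at hu
    rw [hu] at hx hy
    simp only [Bool.false_eq_true, if_false] at hx hy
    have h3 : (pr (sh 1 u)).1 < 1 := by
      rcases h with h | ⟨n, hn⟩
      · rw [hu] at h; exact absurd h (by simp)
      · refine fx_lt_one _ n ?_
        simp only [sh]
        rw [← hn]; congr 1
    rw [if_pos (by rw [hx]; linarith)]
    ext
    · simp only; rw [hx]; ring
    · simp only; rw [hy]; ring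

theorem per_mul (u : Seq) (l : ℤ) (h : ∀ n, u (n + l) = u n) (m : ℕ) :
    ∀ n, u (n + m * l) = u n := by
  induction m with
  | zero => intro n; simp
  | succ m ih =>
    intro n
    have : n + ((m + 1 : ℕ) : ℤ) * l = (n + m * l) + l := by push_cast; ring
    rw [this, h, ih]

theorem B_iter (u : Seq) (l : ℕ) (hl : 1 ≤ l) (h : ∀ n, u (n + (l : ℤ)) = u n) (n : ℕ) :
    B^[n] (pr u) = pr (sh n u) := by
  induction n with
  | zero =>
    simp only [Function.iterate_zero, id_eq, Nat.cast_zero]
    congr 1; funext m; simp [sh]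
  | succ n ih =>
    rw [Function.iterate_succ_apply', ih, B_pr, sh_sh]
    · congr 2; push_cast; ring
    · by_cases h1 : (sh (n : ℤ) u) 1 = true
      · exact Or.inl h1
      · right
        refine ⟨2 * l - 1, ?_⟩
        simp only [Bool.not_eq_true] at h1
        rw [← h1]
        simp only [sh]
        have := per_mul u l h 2 (1 + n)
        rw [← this]
        congr 1
        push_cast
        omega

theorem closing (H : Set (ℝ × ℝ)) (hct : CycleTrap H) : Closing H := by
  intro u i j M hij hm
  obtain ⟨l, hl⟩ : ∃ l : ℕ, (l : ℤ) = j - i := ⟨(j - i).toNat, by omega⟩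
  have hl1 : 1 ≤ l := by omega
  -- the periodic sequence
  set v : Seq := fun t => u (i + (t - i) % (l : ℤ)) with hv
  have hper : ∀ n, v (n + (l : ℤ)) = v n := by
    intro n
    simp only [hv]
    congr 2
    have : n + (l : ℤ) - i = (n - i) + l := by ring
    rw [this, Int.add_emod_right]
  have hin : ∀ t, i ≤ t → t < j → v t = u t := by
    intro t h1 h2
    simp only [hv]
    rw [Int.emod_eq_of_lt (by omega) (by omega)]
    congr 1; ring
  -- agreement to the right
  have hr : ∀ m : ℕ, ∀ t : ℤ, t = i + m → t < j + M → v t = u t := by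
    intro m
    induction m using Nat.strong_induction_on with
    | _ m ih =>
      intro t ht1 ht2
      by_cases h : t < j
      · exact hin t (by omega) h
      · push Not at h
        have h3 : v t = v (t - l) := by
          have := hper (t - l); rw [← this]; congr 1; ring
        have h4 : v (t - l) = u (t - l) := ih (m - l) (by omega) (t - l) (by omega) (by omega)
        have h5 := hm (t - j) (by omega) (by omega)
        rw [h3, h4]
        have e1 : i + (t - j) = t - l := by omega
        have e2 : j + (t - j) = t := by ring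
        rw [e1, e2] at h5
        exact h5
  have hlft : ∀ m : ℕ, ∀ t : ℤ, t = j - 1 - m → i - M ≤ t → v t = u t := by
    intro m
    induction m using Nat.strong_induction_on with
    | _ m ih =>
      intro t ht1 ht2
      by_cases h : i ≤ t
      · exact hin t h (by omega)
      · push Not at h
        have h3 : v t = v (t + l) := (hper t).symm
        have h4 : v (t + l) = u (t + l) := ih (m - l) (by omega) (t + l) (by omega) (by omega)
        have h5 := hm (t - i) (by omega) (by omega)
        rw [h3, h4]
        have e1 : i + (t - i) = t := by ring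
        have e2 : j + (t - i) = t + l := by omega
        rw [e1, e2] at h5
        exact h5.symm
  have hag : ∀ t, i - M ≤ t → t < j + M → v t = u t := by
    intro t h1 h2
    by_cases h : i ≤ t
    · exact hr (t - i).toNat t (by omega) h2
    · exact hlft (j - 1 - t).toNat t (by omega) h1
  -- the periodic orbit
  have hper' : ∀ n, (sh i v) (n + (l : ℤ)) = (sh i v) n := by
    intro n
    simp only [sh]
    rw [← hper (n + i)]; congr 1; ring
  obtain ⟨n, hn⟩ := hct (pr (sh i v)) (pr_mem _) l hl1 (by
    rw [B_iter _ l hl1 hper']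
    congr 1; funext m; simp only [sh]; rw [← hper (m + i)]; congr 1; ring)
  rw [B_iter _ l hl1 hper', sh_sh] at hn
  set r := n % l with hrdef
  have hrl : r < l := Nat.mod_lt _ (by omega)
  have hnr : (n : ℤ) = r + (n / l : ℕ) * (l : ℤ) := by
    have := Nat.mod_add_div n l
    rw [← hrdef] at this
    have h2 : (n : ℤ) = ((r + l * (n / l) : ℕ) : ℤ) := by rw [this]
    rw [h2]; push_cast; ring
  have hsh : sh ((n : ℤ) + i) v = sh (i + r) v := by
    funext m
    simp only [sh]
    have := per_mul v l hper (n / l) (m + (i + r))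
    rw [← this]
    congr 1
    rw [hnr]; ring
  rw [hsh] at hn
  refine ⟨i + r, by omega, by omega, ?_⟩
  set k : ℤ := i + r with hk
  have hd : dist (pr (sh k u)) (pr (sh k v)) ≤ (1 / 2 : ℝ) ^ (M + (min (k - i) (j - 1 - k)).toNat) := by
    refine pr_dist _ _ _ fun t h1 h2 => ?_
    simp only [sh]
    refine (hag (t + k) ?_ ?_).symm
    · push_cast at h1 h2
      omega
    · push_cast at h1 h2
      omega
  calc dd H u k = infDist (pr (sh k u)) (closure H) := by rw [infDist_closure]; rfl
    _ ≤ dist (pr (sh k u)) (pr (sh k v)) := infDist_le_dist_of_mem hn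
    _ ≤ _ := hd

end R952.BK
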