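import Pool.Agent.R952.BK.Defs

set_option autoImplicit false

/-!
# Cells near the boundary of a convex set (written by helper209)
-/

namespace R952.BK

open Set Metric

namespace Cnt

/-! ### combinatorics -/

/-- the elements of `P` without an element of `P` far away in the quadrant `(s, t)` -/
noncomputable def good (P : Finset (ℤ × ℤ)) (s t : ℤ) : Finset (ℤ × ℤ) := by
  classical
  exact P.filter (fun p => ¬ ∃ q ∈ P, s * p.1 + 4 ≤ s * q.1 ∧ t * p.2 + 4 ≤ t * q.2)

theorem exists_far {T : Finset ℤ} {m : ℤ} (h : 4 ≤ T.card) (hm : ∀ x ∈ T, m < x) :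
    ∃ x ∈ T, m + 4 ≤ x := by
  by_contra hcon
  push Not at hcon
  have hsub : T ⊆ Finset.Ioc m (m + 3) := by
    intro x hx
    rw [Finset.mem_Ioc]
    exact ⟨hm x hx, by have := hcon x hx; omega⟩
  have := Finset.card_le_card hsub
  rw [Int.card_Ioc] at this
  have h3 : (m + 3 - m).toNat = 3 := by
    rw [add_sub_cancel_left]; rfl
  omega

theorem comb (P : Finset (ℤ × ℤ)) (s t : ℤ) (hs : s ≠ 0) (ht : t ≠ 0) :
    (good P s t).card ≤ 4 * ((P.image Prod.fst).card + (P.image Prod.snd).card) := by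
  classical
  set S := good P s t with hS
  have hSmem : ∀ p, p ∈ S ↔ p ∈ P ∧ ¬ ∃ q ∈ P, s * p.1 + 4 ≤ s * q.1 ∧ t * p.2 + 4 ≤ t * q.2 := by
    intro p
    rw [hS]
    unfold good
    rw [Finset.mem_filter]
  set up : ℤ × ℤ → Finset (ℤ × ℤ) := fun p => S.filter (fun q => q.1 = p.1 ∧ t * p.2 < t * q.2)
    with hup
  set lf : ℤ × ℤ → Finset (ℤ × ℤ) := fun p => S.filter (fun q => q.2 = p.2 ∧ s * q.1 < s * p.1)
    with hlf
  set C1 := S.filter (fun p => (up p).card < 4) with hC1
  set C2 := S.filter (fun p => (lf p).card < 4) with hC2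
  have hcover : S ⊆ C1 ∪ C2 := by
    intro p hp
    by_contra hcon
    rw [Finset.mem_union, not_or] at hcon
    have h1 : 4 ≤ (up p).card := by
      by_contra h
      exact hcon.1 (Finset.mem_filter.2 ⟨hp, by omega⟩)
    have h2 : 4 ≤ (lf p).card := by
      by_contra h
      exact hcon.2 (Finset.mem_filter.2 ⟨hp, by omega⟩)
    -- an element far up
    obtain ⟨x, hx, hx4⟩ := exists_far (T := (up p).image (fun q => t * q.2)) (m := t * p.2) (by
      rw [Finset.card_image_of_injOn]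
      · exact h1
      · intro q hq q' hq' heq
        have hq1 := (Finset.mem_filter.1 (Finset.mem_coe.1 hq)).2.1
        have hq2 := (Finset.mem_filter.1 (Finset.mem_coe.1 hq')).2.1
        have h3 : q.2 = q'.2 := mul_left_cancel₀ ht heq
        exact Prod.ext (hq1.trans hq2.symm) h3) (by
      intro x hx
      obtain ⟨q, hq, rfl⟩ := Finset.mem_image.1 hx
      exact (Finset.mem_filter.1 hq).2.2)
    obtain ⟨q, hq, rfl⟩ := Finset.mem_image.1 hx
    -- an element far left
    obtain ⟨y, hy, hy4⟩ := exists_far (T := (lf p).image (fun q => - (s * q.1)))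
      (m := - (s * p.1)) (by
      rw [Finset.card_image_of_injOn]
      · exact h2
      · intro q hq q' hq' heq
        have hq1 := (Finset.mem_filter.1 (Finset.mem_coe.1 hq)).2.1
        have hq2 := (Finset.mem_filter.1 (Finset.mem_coe.1 hq')).2.1
        have h3 : q.1 = q'.1 := mul_left_cancel₀ hs (neg_injective heq)
        exact Prod.ext h3 (hq1.trans hq2.symm)) (by
      intro x hx
      obtain ⟨q, hq, rfl⟩ := Finset.mem_image.1 hx
      have := (Finset.mem_filter.1 hq).2.2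
      show -(s * p.1) < -(s * q.1)
      omega)
    obtain ⟨q', hq', rfl⟩ := Finset.mem_image.1 hy
    have hqm := Finset.mem_filter.1 hq
    have hqm' := Finset.mem_filter.1 hq'
    have h5 := ((hSmem q').1 hqm'.1).2
    apply h5
    refine ⟨q, ((hSmem q).1 hqm.1).1, ?_, ?_⟩
    · rw [hqm.2.1]
      omega
    · rw [hqm'.2.1]
      exact hx4
  have hc1 : C1.card ≤ (P.image Prod.fst).card * 4 := by
    have h1 : C1.card ≤ ((P.image Prod.fst) ×ˢ Finset.range 4).card := by
      apply Finset.card_le_card_of_injOn (fun p => (p.1, (up p).card))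
      · intro p hp
        have hp' := Finset.mem_filter.1 (Finset.mem_coe.1 hp)
        rw [Finset.mem_coe, Finset.mem_product]
        refine ⟨Finset.mem_image_of_mem _ ((hSmem p).1 hp'.1).1, ?_⟩
        rw [Finset.mem_range]
        exact hp'.2
      · have key : ∀ p ∈ C1, ∀ p' ∈ C1, p.1 = p'.1 → t * p.2 < t * p'.2 →
            (up p').card < (up p).card := by
          intro p _ p' hp' h1 h2
          apply Finset.card_lt_card
          rw [Finset.ssubset_iff_of_subset]
          · refine ⟨p', ?_, ?_⟩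
            · rw [hup, Finset.mem_filter]
              exact ⟨(Finset.mem_filter.1 hp').1, h1.symm, h2⟩
            · rw [hup, Finset.mem_filter]
              rintro ⟨_, _, h3⟩
              exact lt_irrefl _ h3
          · intro q hq
            rw [hup, Finset.mem_filter] at hq ⊢
            exact ⟨hq.1, hq.2.1.trans h1.symm, h2.trans hq.2.2⟩
        intro p hp p' hp' heq
        have h1 : p.1 = p'.1 := (Prod.ext_iff.1 heq).1
        have h2 : (up p).card = (up p').card := (Prod.ext_iff.1 heq).2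
        rcases lt_trichotomy (t * p.2) (t * p'.2) with h | h | h
        · have := key p hp p' hp' h1 h
          omega
        · exact Prod.ext h1 (mul_left_cancel₀ ht h)
        · have := key p' hp' p hp h1.symm h
          omega
    rwa [Finset.card_product, Finset.card_range] at h1
  have hc2 : C2.card ≤ (P.image Prod.snd).card * 4 := by
    have h1 : C2.card ≤ ((P.image Prod.snd) ×ˢ Finset.range 4).card := by
      apply Finset.card_le_card_of_injOn (fun p => (p.2, (lf p).card))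
      · intro p hp
        have hp' := Finset.mem_filter.1 (Finset.mem_coe.1 hp)
        rw [Finset.mem_coe, Finset.mem_product]
        refine ⟨Finset.mem_image_of_mem _ ((hSmem p).1 hp'.1).1, ?_⟩
        rw [Finset.mem_range]
        exact hp'.2
      · have key : ∀ p ∈ C2, ∀ p' ∈ C2, p.2 = p'.2 → s * p.1 < s * p'.1 →
            (lf p).card < (lf p').card := by
          intro p hp p' _ h1 h2
          apply Finset.card_lt_card
          rw [Finset.ssubset_iff_of_subset]
          · refine ⟨p, ?_, ?_⟩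
            · rw [hlf, Finset.mem_filter]
              exact ⟨(Finset.mem_filter.1 hp).1, h1, h2⟩
            · rw [hlf, Finset.mem_filter]
              rintro ⟨_, _, h3⟩
              exact lt_irrefl _ h3
          · intro q hq
            rw [hlf, Finset.mem_filter] at hq ⊢
            exact ⟨hq.1, hq.2.1.trans h1, hq.2.2.trans h2⟩
        intro p hp p' hp' heq
        have h1 : p.2 = p'.2 := (Prod.ext_iff.1 heq).1
        have h2 : (lf p).card = (lf p').card := (Prod.ext_iff.1 heq).2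
        rcases lt_trichotomy (s * p.1) (s * p'.1) with h | h | h
        · have := key p hp p' hp' h1 h
          omega
        · exact Prod.ext (mul_left_cancel₀ hs h) h1
        · have := key p' hp' p hp h1.symm h
          omega
    rwa [Finset.card_product, Finset.card_range] at h1
  have h1 := Finset.card_le_card hcover
  have h2 := Finset.card_union_le C1 C2
  omega

theorem comb_total (P : Finset (ℤ × ℤ))
    (h : ∀ p ∈ P, ¬ ((∃ q ∈ P, p.1 + 4 ≤ q.1 ∧ p.2 + 4 ≤ q.2) ∧
      (∃ q ∈ P, p.1 + 4 ≤ q.1 ∧ q.2 + 4 ≤ p.2) ∧ (∃ q ∈ P, q.1 + 4 ≤ p.1 ∧ p.2 + 4 ≤ q.2) ∧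
      (∃ q ∈ P, q.1 + 4 ≤ p.1 ∧ q.2 + 4 ≤ p.2))) :
    P.card ≤ 16 * ((P.image Prod.fst).card + (P.image Prod.snd).card) := by
  classical
  have hcover : P ⊆ ((good P 1 1 ∪ good P 1 (-1)) ∪ (good P (-1) 1 ∪ good P (-1) (-1))) := by
    intro p hp
    by_contra hcon
    simp only [Finset.mem_union, not_or] at hcon
    obtain ⟨⟨h1, h2⟩, h3, h4⟩ := hcon
    unfold good at h1 h2 h3 h4
    rw [Finset.mem_filter, not_and, not_not] at h1 h2 h3 h4
    apply h p hp
    refine ⟨?_, ?_, ?_, ?_⟩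
    · obtain ⟨q, hq, h5, h6⟩ := h1 hp
      exact ⟨q, hq, by omega, by omega⟩
    · obtain ⟨q, hq, h5, h6⟩ := h2 hp
      exact ⟨q, hq, by omega, by omega⟩
    · obtain ⟨q, hq, h5, h6⟩ := h3 hp
      exact ⟨q, hq, by omega, by omega⟩
    · obtain ⟨q, hq, h5, h6⟩ := h4 hp
      exact ⟨q, hq, by omega, by omega⟩
  have h1 := Finset.card_le_card hcover
  have h2 := Finset.card_union_le (good P 1 1 ∪ good P 1 (-1)) (good P (-1) 1 ∪ good P (-1) (-1))
  have h3 := Finset.card_union_le (good P 1 1) (good P 1 (-1))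
  have h4 := Finset.card_union_le (good P (-1) 1) (good P (-1) (-1))
  have h5 := comb P 1 1 (by norm_num) (by norm_num)
  have h6 := comb P 1 (-1) (by norm_num) (by norm_num)
  have h7 := comb P (-1) 1 (by norm_num) (by norm_num)
  have h8 := comb P (-1) (-1) (by norm_num) (by norm_num)
  omega

/-! ### geometry -/

theorem seg_point {a b x : ℝ} (h1 : b < x) (h2 : x < a) :
    ∃ s t : ℝ, 0 < s ∧ 0 < t ∧ s + t = 1 ∧ s * b + t * a = x := by
  have h : 0 < a - b := by linarith
  refine ⟨(a - x) / (a - b), (x - b) / (a - b), div_pos (by linarith) h, div_pos (by linarith) h,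
    ?_, ?_⟩
  · field_simp
    ring
  · field_simp
    ring

theorem quad {G : Set (ℝ × ℝ)} (hG : Convex ℝ G) {p : ℝ × ℝ}
    (h1 : ∃ q ∈ G, p.1 < q.1 ∧ p.2 < q.2) (h2 : ∃ q ∈ G, p.1 < q.1 ∧ q.2 < p.2)
    (h3 : ∃ q ∈ G, q.1 < p.1 ∧ p.2 < q.2) (h4 : ∃ q ∈ G, q.1 < p.1 ∧ q.2 < p.2) : p ∈ G := by
  obtain ⟨a, ha, ha1, ha2⟩ := h1
  obtain ⟨c, hc, hc1, hc2⟩ := h2
  obtain ⟨b, hb, hb1, hb2⟩ := h3
  obtain ⟨d, hd, hd1, hd2⟩ := h4
  obtain ⟨s, t, hs, ht, hst, he⟩ := seg_point hb1 ha1
  obtain ⟨s', t', hs', ht', hst', he'⟩ := seg_point hd1 hc1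
  have hu : s • b + t • a ∈ G := hG hb ha hs.le ht.le hst
  have hv : s' • d + t' • c ∈ G := hG hd hc hs'.le ht'.le hst'
  have hu2 : p.2 < (s • b + t • a).2 := by
    show p.2 < s * b.2 + t * a.2
    have e1 : s * p.2 < s * b.2 := mul_lt_mul_of_pos_left hb2 hs
    have e2 : t * p.2 < t * a.2 := mul_lt_mul_of_pos_left ha2 ht
    have e3 : s * p.2 + t * p.2 = p.2 := by rw [← add_mul, hst, one_mul]
    linarith
  have hv2 : (s' • d + t' • c).2 < p.2 := by
    show s' * d.2 + t' * c.2 < p.2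
    have e1 : s' * d.2 < s' * p.2 := mul_lt_mul_of_pos_left hd2 hs'
    have e2 : t' * c.2 < t' * p.2 := mul_lt_mul_of_pos_left hc2 ht'
    have e3 : s' * p.2 + t' * p.2 = p.2 := by rw [← add_mul, hst', one_mul]
    linarith
  obtain ⟨s'', t'', hs'', ht'', hst'', he''⟩ := seg_point hv2 hu2
  have hp : s'' • (s' • d + t' • c) + t'' • (s • b + t • a) = p := by
    apply Prod.ext
    · show s'' * (s' * d.1 + t' * c.1) + t'' * (s * b.1 + t * a.1) = p.1
      rw [he, he', ← add_mul, hst'', one_mul]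
    · exact he''
  rw [← hp]
  exact hG hv hu hs''.le ht''.le hst''

/-! ### digits -/

/-- the numerator of the first `R` digits -/
def nm : ℕ → (ℕ → Bool) → ℤ
  | 0, _ => 0
  | R + 1, d => 2 * nm R d + (if d R then 1 else 0)

theorem nm_congr (R : ℕ) {d d' : ℕ → Bool} (h : ∀ n < R, d n = d' n) : nm R d = nm R d' := by
  induction R with
  | zero => rfl
  | succ R ih =>
    simp only [nm]
    rw [ih (fun n hn => h n (by omega)), h R (by omega)]

theorem nm_inj (R : ℕ) {d d' : ℕ → Bool} (h : nm R d = nm R d') : ∀ n < R, d n = d' n := by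
  induction R with
  | zero => intro n hn; omega
  | succ R ih =>
    simp only [nm] at h
    have h1 : nm R d = nm R d' ∧ d R = d' R := by
      cases hd : d R <;> cases hd' : d' R <;> simp [hd, hd'] at h ⊢ <;> omega
    intro n hn
    rcases Nat.lt_succ_iff_lt_or_eq.1 hn with hn | rfl
    · exact ih h1.1 n hn
    · exact h1.2

theorem fx_summable (a : ℕ → Bool) :
    Summable fun n : ℕ => (if a n then (1 / 2 : ℝ) ^ (n + 1) else 0) := by
  refine Summable.of_nonneg_of_le (fun n => by split_ifs <;> positivity) ?_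
    ((summable_nat_add_iff 1).2 summable_geometric_two)
  intro n
  split_ifs
  · exact le_rfl
  · positivity

theorem fx_nonneg (a : ℕ → Bool) : 0 ≤ fx a :=
  tsum_nonneg fun n => by split_ifs <;> positivity

theorem fx_le_one (a : ℕ → Bool) : fx a ≤ 1 := by
  have h1 : fx a ≤ ∑' n : ℕ, (1 / 2 : ℝ) ^ (n + 1) := by
    refine (fx_summable a).tsum_le_tsum ?_ ((summable_nat_add_iff 1).2 summable_geometric_two)
    intro n
    split_ifs
    · exact le_rfl
    · positivity
  have h2 : ∑' n : ℕ, (1 / 2 : ℝ) ^ (n + 1) = 1 := by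
    have := tsum_geometric_two
    rw [summable_geometric_two.tsum_eq_zero_add] at this
    norm_num at this ⊢
    linarith
  linarith

theorem fx_step (a : ℕ → Bool) :
    fx a = (if a 0 then 1 / 2 else 0) + (1 / 2) * fx (fun n => a (n + 1)) := by
  unfold fx
  rw [(fx_summable a).tsum_eq_zero_add, ← tsum_mul_left]
  congr 1
  · simp
  · apply tsum_congr
    intro n
    split_ifs
    · ring
    · simp

theorem fx_nm (R : ℕ) (d : ℕ → Bool) :
    fx d = (nm R d + fx (fun n => d (n + R))) * (1 / 2 : ℝ) ^ R := by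
  induction R with
  | zero => simp [nm]
  | succ R ih =>
    rw [ih, fx_step (fun n => d (n + R))]
    simp only [nm, zero_add, Int.cast_add, Int.cast_mul, Int.cast_ofNat, Int.cast_ite,
      Int.cast_one, Int.cast_zero]
    have : (fun n => d (n + 1 + R)) = fun n => d (n + (R + 1)) := by
      funext n
      congr 1
      ring
    rw [this, pow_succ]
    split_ifs <;> ring

theorem fx_bounds (R : ℕ) (d : ℕ → Bool) :
    (nm R d : ℝ) * (1 / 2 : ℝ) ^ R ≤ fx d ∧ fx d ≤ ((nm R d : ℝ) + 1) * (1 / 2 : ℝ) ^ R := by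
  have h1 := fx_nonneg (fun n => d (n + R))
  have h2 := fx_le_one (fun n => d (n + R))
  have h3 : (0 : ℝ) < (1 / 2 : ℝ) ^ R := by positivity
  rw [fx_nm R d]
  constructor
  · exact mul_le_mul_of_nonneg_right (by linarith) h3.le
  · exact mul_le_mul_of_nonneg_right (by linarith) h3.le

/-- extension of a word by zeros -/
def extw {R : ℕ} (v : Fin R → Bool) (n : ℕ) : Bool := if h : n < R then v ⟨n, h⟩ else false

/-- the cell of a word -/
noncomputable def cell (R : ℕ) (w : Fin (2 * R) → Bool) : ℤ × ℤ :=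
  (nm R (fun n => extw w (R + n)), nm R (fun n => extw w (R - 1 - n)))

theorem cell_inj (R : ℕ) : Function.Injective (cell R) := by
  intro w w' h
  have h1 := nm_inj R (congrArg Prod.fst h)
  have h2 := nm_inj R (congrArg Prod.snd h)
  funext i
  obtain ⟨i, hi⟩ := i
  rcases lt_or_ge i R with h3 | h3
  · have := h2 (R - 1 - i) (by omega)
    have e : R - 1 - (R - 1 - i) = i := by omega
    simp only [e] at this
    simpa [extw, hi] using this
  · have := h1 (i - R) (by omega)
    have e : R + (i - R) = i := by omega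
    simp only [e] at this
    simpa [extw, hi] using this

theorem cell_wd (R : ℕ) (u : Seq) : cell R (wd u (1 - (R : ℤ)) (2 * R)) =
    (nm R (fun n => u ((n : ℤ) + 1)), nm R (fun n => u (-(n : ℤ)))) := by
  unfold cell
  congr 1
  · apply nm_congr
    intro n hn
    have h : R + n < 2 * R := by omega
    simp only [extw, h, dif_pos, wd]
    congr 1
    push_cast
    ring
  · apply nm_congr
    intro n hn
    have h : R - 1 - n < 2 * R := by omega
    simp only [extw, h, dif_pos, wd]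
    congr 1
    have : ((R - 1 - n : ℕ) : ℤ) = (R : ℤ) - 1 - n := by omega
    rw [this]
    ring

theorem surv_sh {H : Set (ℝ × ℝ)} {u : Seq} (hu : u ∈ Surv H) (k : ℤ) : sh k u ∈ Surv H := by
  intro j
  have h := hu (k + j)
  have e : sh j (sh k u) = sh (k + j) u := by
    funext n
    simp only [sh]
    congr 1
    ring
  rwa [e]

end Cnt

open R952.BK.Cnt in
/-- The number of the cells (squares of side `2^{-R}`) close to the convex set `H` is at most
linear in the number of its rows and columns. -/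
theorem mirror_count (H : Set (ℝ × ℝ)) (hne : H.Nonempty) (hc : Convex ℝ H) (R : ℕ) :
    (MW H R).ncard ≤ 32 * (Lg H R).ncard := by
  classical
  have hfin : (MW H R).Finite := Set.toFinite _
  have hLfin : (Lg H R).Finite := Set.toFinite _
  set P : Finset (ℤ × ℤ) := hfin.toFinset.image (cell R) with hP
  have hPcard : P.card = (MW H R).ncard := by
    rw [hP, Finset.card_image_of_injective _ (cell_inj R), Set.ncard_eq_toFinset_card _ hfin]
  have hmem : ∀ p ∈ P, ∃ u ∈ Surv H, p.1 = nm R (fun n => u ((n : ℤ) + 1)) ∧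
      p.2 = nm R (fun n => u (-(n : ℤ))) ∧ ∃ q ∈ H, dist (pr u) q < 2 * (1 / 2 : ℝ) ^ R := by
    intro p hp
    rw [hP, Finset.mem_image] at hp
    obtain ⟨w, hw, rfl⟩ := hp
    rw [Set.Finite.mem_toFinset] at hw
    obtain ⟨u, hu, rfl, hd⟩ := hw
    refine ⟨u, hu, ?_, ?_, ?_⟩
    · rw [cell_wd]
    · rw [cell_wd]
    · have h0 : sh 0 u = u := by
        funext n
        simp [sh]
      rw [dd, h0, infDist_lt_iff hne] at hd
      exact hd
  have hpos : (0 : ℝ) < (1 / 2 : ℝ) ^ R := by positivity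
  -- positions
  have hright : ∀ a a' : ℤ, ∀ x x' y : ℝ, a + 4 ≤ a' → x ≤ ((a : ℝ) + 1) * (1 / 2 : ℝ) ^ R →
      (a' : ℝ) * (1 / 2 : ℝ) ^ R ≤ x' → |x' - y| < 2 * (1 / 2 : ℝ) ^ R → x < y := by
    intro a a' x x' y h1 h2 h3 h4
    have h5 : (a : ℝ) + 4 ≤ a' := by exact_mod_cast h1
    have h6 := (abs_lt.1 h4).2
    have h7 : ((a : ℝ) + 4) * (1 / 2 : ℝ) ^ R ≤ a' * (1 / 2 : ℝ) ^ R :=
      mul_le_mul_of_nonneg_right h5 hpos.le
    nlinarith
  have hleft : ∀ a a' : ℤ, ∀ x x' y : ℝ, a' + 4 ≤ a → (a : ℝ) * (1 / 2 : ℝ) ^ R ≤ x →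
      x' ≤ ((a' : ℝ) + 1) * (1 / 2 : ℝ) ^ R → |x' - y| < 2 * (1 / 2 : ℝ) ^ R → y < x := by
    intro a a' x x' y h1 h2 h3 h4
    have h5 : (a' : ℝ) + 4 ≤ a := by exact_mod_cast h1
    have h6 := (abs_lt.1 h4).1
    have h7 : ((a' : ℝ) + 4) * (1 / 2 : ℝ) ^ R ≤ a * (1 / 2 : ℝ) ^ R :=
      mul_le_mul_of_nonneg_right h5 hpos.le
    nlinarith
  have hdist : ∀ p q : ℝ × ℝ, dist p q < 2 * (1 / 2 : ℝ) ^ R →
      |p.1 - q.1| < 2 * (1 / 2 : ℝ) ^ R ∧ |p.2 - q.2| < 2 * (1 / 2 : ℝ) ^ R := by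
    intro p q h
    rw [Prod.dist_eq, max_lt_iff, Real.dist_eq, Real.dist_eq] at h
    exact h
  have hno : ∀ p ∈ P, ¬ ((∃ q ∈ P, p.1 + 4 ≤ q.1 ∧ p.2 + 4 ≤ q.2) ∧
      (∃ q ∈ P, p.1 + 4 ≤ q.1 ∧ q.2 + 4 ≤ p.2) ∧ (∃ q ∈ P, q.1 + 4 ≤ p.1 ∧ p.2 + 4 ≤ q.2) ∧
      (∃ q ∈ P, q.1 + 4 ≤ p.1 ∧ q.2 + 4 ≤ p.2)) := by
    rintro p hp ⟨⟨q1, hq1, h1, h1'⟩, ⟨q2, hq2, h2, h2'⟩, ⟨q3, hq3, h3, h3'⟩, ⟨q4, hq4, h4, h4'⟩⟩
    obtain ⟨u, hu, hp1, hp2, _⟩ := hmem p hp
    have hnot : pr u ∉ H := by
      have := hu 0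
      have h0 : sh 0 u = u := by
        funext n
        simp [sh]
      rwa [h0] at this
    apply hnot
    have hb1 := fx_bounds R (fun n => u ((n : ℤ) + 1))
    have hb2 := fx_bounds R (fun n => u (-(n : ℤ)))
    rw [← hp1] at hb1
    rw [← hp2] at hb2
    apply quad hc
    · obtain ⟨u', _, e1, e2, z, hz, hd⟩ := hmem q1 hq1
      have hb1' := fx_bounds R (fun n => u' ((n : ℤ) + 1))
      have hb2' := fx_bounds R (fun n => u' (-(n : ℤ)))
      rw [← e1] at hb1'
      rw [← e2] at hb2'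
      obtain ⟨hd1, hd2⟩ := hdist _ _ hd
      exact ⟨z, hz, hright _ _ _ _ _ h1 hb1.2 hb1'.1 hd1, hright _ _ _ _ _ h1' hb2.2 hb2'.1 hd2⟩
    · obtain ⟨u', _, e1, e2, z, hz, hd⟩ := hmem q2 hq2
      have hb1' := fx_bounds R (fun n => u' ((n : ℤ) + 1))
      have hb2' := fx_bounds R (fun n => u' (-(n : ℤ)))
      rw [← e1] at hb1'
      rw [← e2] at hb2'
      obtain ⟨hd1, hd2⟩ := hdist _ _ hd
      exact ⟨z, hz, hright _ _ _ _ _ h2 hb1.2 hb1'.1 hd1, hleft _ _ _ _ _ h2' hb2.1 hb2'.2 hd2⟩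
    · obtain ⟨u', _, e1, e2, z, hz, hd⟩ := hmem q3 hq3
      have hb1' := fx_bounds R (fun n => u' ((n : ℤ) + 1))
      have hb2' := fx_bounds R (fun n => u' (-(n : ℤ)))
      rw [← e1] at hb1'
      rw [← e2] at hb2'
      obtain ⟨hd1, hd2⟩ := hdist _ _ hd
      exact ⟨z, hz, hleft _ _ _ _ _ h3 hb1.1 hb1'.2 hd1, hright _ _ _ _ _ h3' hb2.2 hb2'.1 hd2⟩
    · obtain ⟨u', _, e1, e2, z, hz, hd⟩ := hmem q4 hq4
      have hb1' := fx_bounds R (fun n => u' ((n : ℤ) + 1))
      have hb2' := fx_bounds R (fun n => u' (-(n : ℤ)))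
      rw [← e1] at hb1'
      rw [← e2] at hb2'
      obtain ⟨hd1, hd2⟩ := hdist _ _ hd
      exact ⟨z, hz, hleft _ _ _ _ _ h4 hb1.1 hb1'.2 hd1, hleft _ _ _ _ _ h4' hb2.1 hb2'.2 hd2⟩
  have htotal := comb_total P hno
  have hA : (P.image Prod.fst).card ≤ (Lg H R).ncard := by
    rw [Set.ncard_eq_toFinset_card _ hLfin]
    refine (Finset.card_le_card (t := hLfin.toFinset.image (fun v => nm R (extw v))) ?_).trans
      Finset.card_image_le
    intro a ha
    rw [Finset.mem_image] at ha ⊢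
    obtain ⟨p, hp, rfl⟩ := ha
    obtain ⟨u, hu, hp1, _⟩ := hmem p hp
    refine ⟨wd (sh 1 u) 0 R, ?_, ?_⟩
    · rw [Set.Finite.mem_toFinset]
      exact ⟨sh 1 u, surv_sh hu 1, rfl⟩
    · rw [hp1]
      apply nm_congr
      intro n hn
      simp only [extw, hn, dif_pos, wd, sh]
      congr 1
      ring
  have hB : (P.image Prod.snd).card ≤ (Lg H R).ncard := by
    rw [Set.ncard_eq_toFinset_card _ hLfin]
    refine (Finset.card_le_card (t := hLfin.toFinset.image
      (fun v => nm R (fun n => extw v (R - 1 - n)))) ?_).trans Finset.card_image_le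
    intro a ha
    rw [Finset.mem_image] at ha ⊢
    obtain ⟨p, hp, rfl⟩ := ha
    obtain ⟨u, hu, _, hp2, _⟩ := hmem p hp
    refine ⟨wd (sh (1 - (R : ℤ)) u) 0 R, ?_, ?_⟩
    · rw [Set.Finite.mem_toFinset]
      exact ⟨sh (1 - (R : ℤ)) u, surv_sh hu _, rfl⟩
    · rw [hp2]
      apply nm_congr
      intro n hn
      have h : R - 1 - n < R := by omega
      simp only [extw, h, dif_pos, wd, sh]
      congr 1
      have : ((R - 1 - n : ℕ) : ℤ) = (R : ℤ) - 1 - n := by omega
      rw [this]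
      ring
  rw [← hPcard]
  omega

end R952.BK
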