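import Mathlib

set_option autoImplicit false

/-!
# The baker's map with a hole: definitions
-/

namespace R952.BK

open Set Metric

/-- the unit square `[0,1]^2` (in `ℝ × ℝ` with the maximum metric) -/
def X : Set (ℝ × ℝ) := Icc (0 : ℝ) 1 ×ˢ Icc (0 : ℝ) 1

/-- the baker's map -/
noncomputable def B (p : ℝ × ℝ) : ℝ × ℝ :=
  if p.1 < 1 / 2 then (2 * p.1, p.2 / 2) else (2 * p.1 - 1, (p.2 + 1) / 2)

/-- every periodic orbit of the baker's map meets the closure of `H` -/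
def CycleTrap (H : Set (ℝ × ℝ)) : Prop :=
  ∀ p ∈ X, ∀ l : ℕ, 1 ≤ l → B^[l] p = p → ∃ n : ℕ, B^[n] p ∈ closure H

/-- the number with the binary digits `a 0, a 1, ...` -/
noncomputable def fx (a : ℕ → Bool) : ℝ := ∑' n : ℕ, (if a n then (1 / 2 : ℝ) ^ (n + 1) else 0)

/-- two-sided 0-1 sequences -/
abbrev Seq : Type := ℤ → Bool

/-- the point coded by a two-sided sequence:
`x = ∑_{n ≥ 1} u_n 2^{-n}`, `y = ∑_{n ≥ 0} u_{-n} 2^{-n-1}` -/
noncomputable def pr (u : Seq) : ℝ × ℝ :=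
  (fx (fun n => u ((n : ℤ) + 1)), fx (fun n => u (-(n : ℤ))))

/-- the shift by `k` -/
def sh (k : ℤ) (u : Seq) : Seq := fun n => u (n + k)

/-- the sequences whose orbit avoids `H` -/
def Surv (H : Set (ℝ × ℝ)) : Set Seq := {u | ∀ k : ℤ, pr (sh k u) ∉ H}

/-- distance to `H` of the point of the orbit at time `k` -/
noncomputable def dd (H : Set (ℝ × ℝ)) (u : Seq) (k : ℤ) : ℝ := infDist (pr (sh k u)) H

/-- the word of length `m` that starts at position `s` -/
def wd (u : Seq) (s : ℤ) (m : ℕ) : Fin m → Bool := fun i => u (s + (i : ℕ))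

/-- the words of length `n` of the surviving sequences -/
def Lg (H : Set (ℝ × ℝ)) (n : ℕ) : Set (Fin n → Bool) := {w | ∃ u ∈ Surv H, wd u 0 n = w}

/-- the words of length `2 R` around a time at which the orbit is close to `H` -/
def MW (H : Set (ℝ × ℝ)) (R : ℕ) : Set (Fin (2 * R) → Bool) :=
  {w | ∃ u ∈ Surv H, wd u (1 - (R : ℤ)) (2 * R) = w ∧ dd H u 0 < 2 * (1 / 2 : ℝ) ^ R}

/-- the closing property -/
def Closing (H : Set (ℝ × ℝ)) : Prop :=
  ∀ (u : Seq) (i j : ℤ) (M : ℕ), i < j →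
    (∀ s : ℤ, -(M : ℤ) ≤ s → s < M → u (i + s) = u (j + s)) →
    ∃ k : ℤ, i ≤ k ∧ k < j ∧ dd H u k ≤ (1 / 2 : ℝ) ^ (M + (min (k - i) (j - 1 - k)).toNat)

open Classical in
/-- the number of `t < N` that are not in the inner part of a window, at distance at most `L`,
around a time at which the orbit is close to `H` -/
noncomputable def bad (H : Set (ℝ × ℝ)) (M L : ℕ) (u : Seq) (N : ℕ) : ℕ :=
  ((Finset.range N).filter (fun t : ℕ => ¬ ∃ k : ℤ, (k - (t : ℤ)).natAbs ≤ L ∧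
    dd H u k < 2 * (1 / 2 : ℝ) ^ (M - 1 + (k - (t : ℤ)).natAbs))).card

end R952.BK
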