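import Pool.Agent.R952.BK.Defs

set_option autoImplicit false

/-!
# The baker's map with a hole: dimension zero and coding of orbits
-/

namespace R952.BK

open Set Metric Filter MeasureTheory Topology
open scoped ENNReal NNReal

/-- the terms of the binary expansion -/
noncomputable def tr (a : ℕ → Bool) (n : ℕ) : ℝ := if a n then (1 / 2 : ℝ) ^ (n + 1) else 0

theorem tr_nonneg (a : ℕ → Bool) (n : ℕ) : 0 ≤ tr a n := by
  unfold tr
  split_ifs
  · positivity
  · exact le_rfl

theorem tr_le (a : ℕ → Bool) (n : ℕ) : tr a n ≤ (1 / 2 : ℝ) ^ (n + 1) := by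
  unfold tr
  split_ifs
  · exact le_rfl
  · positivity

theorem geo_summable : Summable (fun n : ℕ => (1 / 2 : ℝ) ^ (n + 1)) :=
  (summable_nat_add_iff 1).2 (summable_geometric_of_lt_one (by norm_num) (by norm_num))

theorem tr_summable (a : ℕ → Bool) : Summable (tr a) :=
  Summable.of_nonneg_of_le (tr_nonneg a) (tr_le a) geo_summable

theorem geo_tail (N : ℕ) : ∑' n : ℕ, (1 / 2 : ℝ) ^ (n + N + 1) = (1 / 2 : ℝ) ^ N := by
  have h : ∀ n : ℕ, (1 / 2 : ℝ) ^ (n + N + 1) = (1 / 2 : ℝ) ^ (N + 1) * (1 / 2 : ℝ) ^ n := by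
    intro n
    rw [← pow_add]
    congr 1
    ring
  simp_rw [h]
  rw [tsum_mul_left, tsum_geometric_of_lt_one (by norm_num) (by norm_num), pow_succ]
  norm_num
  ring

theorem fx_close {a b : ℕ → Bool} {N : ℕ} (h : ∀ n, n < N → a n = b n) :
    |fx a - fx b| ≤ (1 / 2 : ℝ) ^ N := by
  have e : ∀ c : ℕ → Bool, fx c = ∑ n ∈ Finset.range N, tr c n + ∑' n, tr c (n + N) := fun c =>
    ((tr_summable c).sum_add_tsum_nat_add N).symm
  have hs : ∑ n ∈ Finset.range N, tr a n = ∑ n ∈ Finset.range N, tr b n :=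
    Finset.sum_congr rfl fun n hn => by
      unfold tr
      rw [h n (Finset.mem_range.1 hn)]
  have t0 : ∀ c : ℕ → Bool, 0 ≤ ∑' n, tr c (n + N) := fun c => tsum_nonneg fun n => tr_nonneg _ _
  have t1 : ∀ c : ℕ → Bool, ∑' n, tr c (n + N) ≤ (1 / 2 : ℝ) ^ N := fun c => by
    rw [← geo_tail N]
    exact ((summable_nat_add_iff N).2 (tr_summable c)).tsum_le_tsum (fun n => tr_le c (n + N))
      ((summable_nat_add_iff N).2 geo_summable)
  rw [e a, e b, hs]
  have := t0 a
  have := t0 b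
  have := t1 a
  have := t1 b
  rw [abs_le]
  constructor <;> linarith

theorem surv_sh {H : Set (ℝ × ℝ)} {u : Seq} (hu : u ∈ Surv H) (k : ℤ) : sh k u ∈ Surv H := by
  intro j
  have : sh j (sh k u) = sh (j + k) u := by
    funext n
    simp only [sh]
    congr 1
    ring
  rw [this]
  exact hu _

theorem wd_sh (u : Seq) (s : ℤ) (m : ℕ) : wd u s m = wd (sh s u) 0 m := by
  funext i
  simp only [wd, sh]
  congr 1
  ring

/-- the cylinder -/
def cyl (H : Set (ℝ × ℝ)) (n : ℕ) (w : Fin (2 * n) → Bool) : Set (ℝ × ℝ) :=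
  {p | ∃ u ∈ Surv H, wd u (1 - (n : ℤ)) (2 * n) = w ∧ pr u = p}

theorem cyl_diam (H : Set (ℝ × ℝ)) (n : ℕ) (w : Fin (2 * n) → Bool) :
    ediam (cyl H n w) ≤ ENNReal.ofReal ((1 / 2 : ℝ) ^ n) := by
  refine ediam_le ?_
  rintro p ⟨u, -, hu, rfl⟩ q ⟨v, -, hv, rfl⟩
  rw [edist_dist]
  refine ENNReal.ofReal_le_ofReal ?_
  have huv : ∀ k : ℤ, 1 - (n : ℤ) ≤ k → k ≤ n → u k = v k := by
    intro k h1 h2
    have e := congrFun (hu.trans hv.symm) ⟨(k - (1 - (n : ℤ))).toNat, by omega⟩
    simp only [wd] at e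
    have e2 : (1 - (n : ℤ)) + ((k - (1 - (n : ℤ))).toNat : ℤ) = k := by omega
    rwa [e2] at e
  rw [Prod.dist_eq]
  refine max_le ?_ ?_
  · rw [Real.dist_eq]
    exact fx_close fun j hj => huv _ (by omega) (by omega)
  · rw [Real.dist_eq]
    exact fx_close fun j hj => huv _ (by omega) (by omega)

theorem cyl_cover (H : Set (ℝ × ℝ)) (n : ℕ) :
    pr '' Surv H ⊆ ⋃ w : Lg H (2 * n), cyl H n w := by
  rintro p ⟨u, hu, rfl⟩
  refine mem_iUnion.2 ⟨⟨wd u (1 - (n : ℤ)) (2 * n), ⟨sh (1 - (n : ℤ)) u, surv_sh hu _, ?_⟩⟩,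
    u, hu, rfl, rfl⟩
  rw [← wd_sh]

/-- BK2: the dimension is zero if the number of words grows subexponentially -/
theorem dim_zero (H : Set (ℝ × ℝ))
    (h : ∀ δ : ℝ, 0 < δ → ∀ᶠ n : ℕ in atTop, ((Lg H n).ncard : ℝ) ≤ Real.exp (δ * n)) :
    dimH (pr '' Surv H) = 0 := by
  have key : ∀ d : ℝ≥0, 0 < d → μH[(d : ℝ)] (pr '' Surv H) = 0 := by
    intro d hd
    have hd' : (0 : ℝ) < d := hd
    have hl2 : 0 < Real.log 2 := Real.log_pos (by norm_num)
    have hr : Tendsto (fun n : ℕ => ENNReal.ofReal ((1 / 2 : ℝ) ^ n)) atTop (𝓝 0) := by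
      have := ENNReal.tendsto_ofReal
        (tendsto_pow_atTop_nhds_zero_of_lt_one (r := (1 / 2 : ℝ)) (by norm_num) (by norm_num))
      rwa [ENNReal.ofReal_zero] at this
    have : ∀ n : ℕ, Fintype (Lg H (2 * n)) := fun n => Fintype.ofFinite _
    have h1 := Measure.hausdorffMeasure_le_liminf_sum (ι := fun n : ℕ => Lg H (2 * n)) (d : ℝ)
      (pr '' Surv H) (l := atTop) (fun n : ℕ => ENNReal.ofReal ((1 / 2 : ℝ) ^ n)) hr
      (fun n w => cyl H n w) (Eventually.of_forall fun n w => cyl_diam H n w)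
      (Eventually.of_forall fun n => cyl_cover H n)
    have h2 : ∀ n : ℕ, ∑ w : Lg H (2 * n), ediam (cyl H n w) ^ (d : ℝ) ≤
        ENNReal.ofReal (((Lg H (2 * n)).ncard : ℝ) * Real.exp (-(n * (d * Real.log 2)))) := by
      intro n
      have h3 : ∀ w : Lg H (2 * n), ediam (cyl H n w) ^ (d : ℝ) ≤
          ENNReal.ofReal (Real.exp (-(n * (d * Real.log 2)))) := by
        intro w
        refine (ENNReal.rpow_le_rpow (cyl_diam H n w) hd'.le).trans ?_
        rw [ENNReal.ofReal_rpow_of_nonneg (by positivity) hd'.le]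
        refine ENNReal.ofReal_le_ofReal (le_of_eq ?_)
        rw [← Real.rpow_natCast, ← Real.rpow_mul (by norm_num),
          Real.rpow_def_of_pos (by norm_num)]
        congr 1
        rw [one_div, Real.log_inv]
        ring
      refine (Finset.sum_le_sum fun w _ => h3 w).trans ?_
      rw [Finset.sum_const, Finset.card_univ, nsmul_eq_mul, ENNReal.ofReal_mul (by positivity),
        ENNReal.ofReal_natCast, ← Nat.card_eq_fintype_card, Nat.card_coe_set_eq]
    have h3 : ∀ᶠ n : ℕ in atTop, ∑ w : Lg H (2 * n), ediam (cyl H n w) ^ (d : ℝ) ≤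
        ENNReal.ofReal (Real.exp (-(n * (d * Real.log 2 / 2)))) := by
      have ht : Tendsto (fun n : ℕ => 2 * n) atTop atTop :=
        tendsto_atTop_mono (fun n => (by omega : n ≤ 2 * n)) tendsto_id
      filter_upwards [ht.eventually (h (d * Real.log 2 / 4) (by positivity))] with n hn
      refine (h2 n).trans (ENNReal.ofReal_le_ofReal ?_)
      refine (mul_le_mul_of_nonneg_right hn (Real.exp_pos _).le).trans (le_of_eq ?_)
      rw [← Real.exp_add]
      congr 1
      push_cast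
      ring
    have h4 : Tendsto (fun n : ℕ => ENNReal.ofReal (Real.exp (-(n * (d * Real.log 2 / 2))))) atTop
        (𝓝 0) := by
      have h5 : Tendsto (fun n : ℕ => (n : ℝ) * (d * Real.log 2 / 2)) atTop atTop :=
        tendsto_natCast_atTop_atTop.atTop_mul_const (by positivity)
      have := ENNReal.tendsto_ofReal (Real.tendsto_exp_neg_atTop_nhds_zero.comp h5)
      rwa [ENNReal.ofReal_zero] at this
    refine le_antisymm (h1.trans ?_) (zero_le)
    refine (liminf_le_liminf h3).trans ?_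
    rw [h4.liminf_eq]
  refine le_antisymm ?_ (zero_le)
  refine ENNReal.le_of_forall_pos_le_add fun ε hε _ => ?_
  rw [zero_add]
  exact dimH_le_of_hausdorffMeasure_ne_top (by rw [key ε hε]; exact ENNReal.zero_ne_top)

/-- the binary expansion of an orbit -/
theorem fx_orbit {a : ℕ → Bool} {z : ℕ → ℝ} (h0 : ∀ k, 0 ≤ z k) (h1 : ∀ k, z k ≤ 1)
    (h : ∀ k, z k = ((if a k then 1 else 0) + z (k + 1)) / 2) : z 0 = fx a := by
  have e : ∀ N : ℕ, z 0 = ∑ k ∈ Finset.range N, tr a k + (1 / 2 : ℝ) ^ N * z N := by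
    intro N
    induction N with
    | zero => simp
    | succ N ih =>
      rw [Finset.sum_range_succ, ih, h N, tr]
      split_ifs <;> rw [pow_succ] <;> ring
  have ht : Tendsto (fun N : ℕ => ∑ k ∈ Finset.range N, tr a k) atTop (𝓝 (z 0)) := by
    have h2 : Tendsto (fun N : ℕ => (1 / 2 : ℝ) ^ N * z N) atTop (𝓝 0) := by
      refine squeeze_zero (fun N => mul_nonneg (by positivity) (h0 N))
        (fun N => ?_) (tendsto_pow_atTop_nhds_zero_of_lt_one (r := (1 / 2 : ℝ)) (by norm_num)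
          (by norm_num))
      exact mul_le_of_le_one_right (by positivity) (h1 N)
    have h3 : (fun N : ℕ => ∑ k ∈ Finset.range N, tr a k) =
        fun N : ℕ => z 0 - (1 / 2 : ℝ) ^ N * z N := by
      funext N
      have := e N
      linarith
    rw [h3]
    simpa using h2.const_sub (z 0)
  exact tendsto_nhds_unique ht (tr_summable a).hasSum.tendsto_sum_nat

/-- BK2: coding of the orbits -/
theorem orbit_coded (H : Set (ℝ × ℝ)) :
    {p : ℝ × ℝ | ∃ q : ℤ → ℝ × ℝ, q 0 = p ∧ (∀ n, q n ∈ X) ∧ (∀ n, B (q n) = q (n + 1)) ∧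
      ∀ n, q n ∉ H} ⊆ pr '' Surv H := by
  rintro p ⟨q, rfl, hX, hB, hH⟩
  classical
  set u : Seq := fun m => decide (1 / 2 ≤ (q (m - 1)).1) with hu
  have e1 : ∀ n : ℤ, (q n).1 = ((if u (n + 1) then 1 else 0) + (q (n + 1)).1) / 2 := by
    intro n
    rw [← hB n]
    simp only [hu, add_sub_cancel_right, decide_eq_true_eq, B]
    by_cases h : (q n).1 < 1 / 2
    · rw [if_neg (not_le.2 h), if_pos h]
      simp
    · rw [if_pos (not_lt.1 h), if_neg h]
      simp only
      ring
  have e2 : ∀ n : ℤ, (q (n + 1)).2 = ((if u (n + 1) then 1 else 0) + (q n).2) / 2 := by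
    intro n
    rw [← hB n]
    simp only [hu, add_sub_cancel_right, decide_eq_true_eq, B]
    by_cases h : (q n).1 < 1 / 2
    · rw [if_neg (not_le.2 h), if_pos h]
      simp
    · rw [if_pos (not_lt.1 h), if_neg h]
      simp only
      ring
  have hp : ∀ n : ℤ, pr (sh n u) = q n := by
    intro n
    refine Prod.ext ?_ ?_
    · simp only [pr, sh]
      have := fx_orbit (a := fun k : ℕ => u ((k : ℤ) + 1 + n)) (z := fun k : ℕ => (q (k + n)).1)
        (fun k => (hX _).1.1) (fun k => (hX _).1.2) (fun k => by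
          have := e1 (k + n)
          rw [this]
          have e3 : (k : ℤ) + n + 1 = (k : ℤ) + 1 + n := by ring
          rw [e3]
          push_cast
          rfl)
      rw [← this]
      simp
    · simp only [pr, sh]
      have := fx_orbit (a := fun k : ℕ => u (-(k : ℤ) + n)) (z := fun k : ℕ => (q (-k + n)).2)
        (fun k => (hX _).2.1) (fun k => (hX _).2.2) (fun k => by
          have := e2 (-((k : ℤ) + 1) + n)
          have e3 : -((k : ℤ) + 1) + n + 1 = -(k : ℤ) + n := by ring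
          rw [e3] at this
          rw [this]
          push_cast
          rfl)
      rw [← this]
      simp
  refine ⟨u, fun k => ?_, ?_⟩
  · rw [hp]
    exact hH k
  · have := hp 0
    have e : sh 0 u = u := by
      funext n
      simp [sh]
    rwa [e] at this

end R952.BK
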