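import Pool.Agent.R952.BK.Defs

set_option autoImplicit false

namespace R952.BK
open Set Metric Filter

theorem wd_shift (u : Seq) (k s : ℤ) (n : ℕ) : wd (sh k u) s n = wd u (s + k) n := by
  funext i
  simp only [wd, sh]
  congr 1; ring

theorem sh_surv (H : Set (ℝ × ℝ)) (u : Seq) (k : ℤ) (hu : u ∈ Surv H) : sh k u ∈ Surv H := by
  intro l
  have : sh l (sh k u) = sh (l + k) u := by funext n; simp only [sh]; congr 1; ring
  rw [this]
  exact hu _

theorem wd_mem (H : Set (ℝ × ℝ)) (u : Seq) (s : ℤ) (n : ℕ) (hu : u ∈ Surv H) :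
    wd u s n ∈ Lg H n := by
  refine ⟨sh s u, sh_surv H u s hu, ?_⟩
  rw [wd_shift, zero_add]

theorem wd_MW (H : Set (ℝ × ℝ)) (u : Seq) (s R : ℕ) (hu : u ∈ Surv H)
    (h : dd H u ((s : ℤ) + R - 1) < 2 * (1 / 2 : ℝ) ^ R) : wd u s (2 * R) ∈ MW H R := by
  refine ⟨sh ((s : ℤ) + R - 1) u, sh_surv H u _ hu, ?_, ?_⟩
  · rw [wd_shift]; congr 1; ring
  · have : dd H (sh ((s : ℤ) + R - 1) u) 0 = dd H u ((s : ℤ) + R - 1) := by
      unfold dd
      congr 2
      funext n; simp only [sh]; congr 1; ring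
    rw [this]; exact h

/-- extension of a word -/
def ext {n : ℕ} (w : Fin n → Bool) : Seq :=
  fun t => if h : 0 ≤ t ∧ t < n then w ⟨t.toNat, by omega⟩ else false

theorem wd_ext {n : ℕ} (w : Fin n → Bool) : wd (ext w) 0 n = w := by
  funext i
  have hi := i.2
  simp only [wd, ext]
  rw [dif_pos (by constructor <;> omega)]
  congr 1
  ext
  simp

theorem ext_wd (u : Seq) (n : ℕ) (t : ℤ) (h0 : 0 ≤ t) (h1 : t < n) : ext (wd u 0 n) t = u t := by
  simp only [ext]
  rw [dif_pos ⟨h0, h1⟩]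
  simp only [wd]
  congr 1
  omega

theorem wd_congr (u v : Seq) (s : ℤ) (n : ℕ) (h : ∀ t : ℤ, s ≤ t → t < s + n → u t = v t) :
    wd u s n = wd v s n := by
  funext i
  have hi := i.2
  simp only [wd]
  exact h _ (by omega) (by omega)

open Classical in
/-- the weight of a word -/
noncomputable def V (H : Set (ℝ × ℝ)) (m : ℕ) (γ : ℝ) (u : Seq) (n : ℕ) : ℝ :=
  1 + ∑ R ∈ Finset.range (n + 1), ∑ g ∈ Finset.range (n + 1),
    if h : 1 ≤ R ∧ g + 2 * R ≤ n then
      (if m ≤ R ∧ wd u ((n - g - 2 * R : ℕ) : ℤ) (2 * R) ∈ MW H R then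
        Real.exp (γ * R) * V H m γ u (n - g - 2 * R) else 0)
    else 0
termination_by n
decreasing_by omega

theorem V_nonneg (H : Set (ℝ × ℝ)) (m : ℕ) (γ : ℝ) (u : Seq) (n : ℕ) : 0 ≤ V H m γ u n := by
  induction n using Nat.strong_induction_on with
  | _ n ih =>
    rw [V]
    refine add_nonneg zero_le_one (Finset.sum_nonneg fun R _ => Finset.sum_nonneg fun g _ => ?_)
    split_ifs with h1 h2
    · exact mul_nonneg (Real.exp_pos _).le (ih _ (by omega))
    · exact le_rfl
    · exact le_rfl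

theorem V_one_le (H : Set (ℝ × ℝ)) (m : ℕ) (γ : ℝ) (u : Seq) (n : ℕ) : 1 ≤ V H m γ u n := by
  rw [V]
  refine le_add_of_nonneg_right (Finset.sum_nonneg fun R _ => Finset.sum_nonneg fun g _ => ?_)
  split_ifs with h1 h2
  · exact mul_nonneg (Real.exp_pos _).le (V_nonneg _ _ _ _ _)
  · exact le_rfl
  · exact le_rfl

theorem V_congr (H : Set (ℝ × ℝ)) (m : ℕ) (γ : ℝ) (u v : Seq) (n : ℕ)
    (h : ∀ t : ℤ, 0 ≤ t → t < n → u t = v t) : V H m γ u n = V H m γ v n := by
  induction n using Nat.strong_induction_on with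
  | _ n ih =>
    rw [V, V]
    congr 1
    refine Finset.sum_congr rfl fun R _ => Finset.sum_congr rfl fun g _ => ?_
    by_cases h1 : 1 ≤ R ∧ g + 2 * R ≤ n
    · rw [dif_pos h1, dif_pos h1]
      rw [wd_congr u v _ _ fun t ht0 ht1 => h t (by omega) (by push_cast at ht1; omega),
        ih (n - g - 2 * R) (by omega) fun t ht0 ht1 => h t ht0 (by omega)]
    · rw [dif_neg h1, dif_neg h1]

/-- disjoint windows give a lower bound for the weight -/
theorem V_ge (H : Set (ℝ × ℝ)) (m : ℕ) (hm : 1 ≤ m) (γ : ℝ) (u : Seq) (c : ℕ) :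
    ∀ (n : ℕ) (F : Finset (ℕ × ℕ)), F.card = c →
      (∀ a ∈ F, m ≤ a.2 ∧ a.1 + 2 * a.2 ≤ n ∧ wd u a.1 (2 * a.2) ∈ MW H a.2) →
      (∀ a ∈ F, ∀ b ∈ F, a ≠ b → a.1 + 2 * a.2 ≤ b.1 ∨ b.1 + 2 * b.2 ≤ a.1) →
      Real.exp (γ * ∑ a ∈ F, (a.2 : ℝ)) ≤ V H m γ u n := by
  classical
  induction c with
  | zero =>
    intro n F hF _ _
    rw [Finset.card_eq_zero] at hF
    rw [hF]
    simp only [Finset.sum_empty, mul_zero, Real.exp_zero]
    exact V_one_le _ _ _ _ _
  | succ c ih =>
    intro n F hF h1 h2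
    have hne : F.Nonempty := by rw [← Finset.card_pos, hF]; omega
    obtain ⟨a, ha, hmax⟩ := Finset.exists_max_image F (fun a => a.1) hne
    have h3 := ih a.1 (F.erase a) (by rw [Finset.card_erase_of_mem ha, hF]; rfl)
      (fun b hb => by
        have hb' := Finset.mem_of_mem_erase hb
        have hne' : b ≠ a := Finset.ne_of_mem_erase hb
        refine ⟨(h1 b hb').1, ?_, (h1 b hb').2.2⟩
        rcases h2 b hb' a ha hne' with h | h
        · exact h
        · have := hmax b hb'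
          have h5 := (h1 a ha).1
          omega)
      (fun b hb b' hb' => h2 b (Finset.mem_of_mem_erase hb) b' (Finset.mem_of_mem_erase hb'))
    have h4 := h1 a ha
    rw [← Finset.add_sum_erase F _ ha, mul_add, Real.exp_add]
    refine le_trans (mul_le_mul_of_nonneg_left h3 (Real.exp_pos _).le) ?_
    have hterm : (if h : 1 ≤ a.2 ∧ (n - a.1 - 2 * a.2) + 2 * a.2 ≤ n then
      (if m ≤ a.2 ∧ wd u ((n - (n - a.1 - 2 * a.2) - 2 * a.2 : ℕ) : ℤ) (2 * a.2) ∈ MW H a.2 then
        Real.exp (γ * a.2) * V H m γ u (n - (n - a.1 - 2 * a.2) - 2 * a.2) else 0)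
      else 0) = Real.exp (γ * a.2) * V H m γ u a.1 := by
      have e : n - (n - a.1 - 2 * a.2) - 2 * a.2 = a.1 := by omega
      rw [dif_pos (by constructor <;> omega), e, if_pos ⟨h4.1, h4.2.2⟩]
    rw [← hterm]
    rw [V.eq_def H m γ u n]
    have hnn : ∀ R ∈ Finset.range (n + 1), ∀ g ∈ Finset.range (n + 1),
        0 ≤ (if h : 1 ≤ R ∧ g + 2 * R ≤ n then
      (if m ≤ R ∧ wd u ((n - g - 2 * R : ℕ) : ℤ) (2 * R) ∈ MW H R then
        Real.exp (γ * R) * V H m γ u (n - g - 2 * R) else 0)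
      else 0) := by
      intro R _ g _
      split_ifs with h1 h2
      · exact mul_nonneg (Real.exp_pos _).le (V_nonneg _ _ _ _ _)
      · exact le_rfl
      · exact le_rfl
    have hR : a.2 ∈ Finset.range (n + 1) := by rw [Finset.mem_range]; omega
    have hg : n - a.1 - 2 * a.2 ∈ Finset.range (n + 1) := by rw [Finset.mem_range]; omega
    have s1 := Finset.single_le_sum (fun g hg => hnn a.2 hR g hg) hg
    have s2 := Finset.single_le_sum
      (f := fun R => ∑ g ∈ Finset.range (n + 1), (if h : 1 ≤ R ∧ g + 2 * R ≤ n then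
      (if m ≤ R ∧ wd u ((n - g - 2 * R : ℕ) : ℤ) (2 * R) ∈ MW H R then
        Real.exp (γ * R) * V H m γ u (n - g - 2 * R) else 0)
      else 0))
      (fun R hR => Finset.sum_nonneg (hnn R hR)) hR
    have s3 := s1.trans s2
    linarith

/-- total weight of the words of length `n` -/
noncomputable def A (H : Set (ℝ × ℝ)) (m : ℕ) (γ : ℝ) (n : ℕ) : ℝ :=
  ∑ w ∈ (Set.toFinite (Lg H n)).toFinset, V H m γ (ext w) n

theorem A_nonneg (H : Set (ℝ × ℝ)) (m : ℕ) (γ : ℝ) (n : ℕ) : 0 ≤ A H m γ n :=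
  Finset.sum_nonneg fun _ _ => V_nonneg _ _ _ _ _

theorem A_rec (H : Set (ℝ × ℝ)) (m : ℕ) (γ : ℝ) (n : ℕ) :
    A H m γ n ≤ (Lg H n).ncard + ∑ R ∈ Finset.range (n + 1), ∑ g ∈ Finset.range (n + 1),
      if 1 ≤ R ∧ g + 2 * R ≤ n ∧ m ≤ R then
        Real.exp (γ * R) * (A H m γ (n - g - 2 * R) * (MW H R).ncard * (Lg H g).ncard)
      else 0 := by
  classical
  rw [show A H m γ n = ∑ w ∈ (Set.toFinite (Lg H n)).toFinset, V H m γ (ext w) n from rfl]
  have e1 : ∀ w ∈ (Set.toFinite (Lg H n)).toFinset, V H m γ (ext w) n =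
      1 + ∑ R ∈ Finset.range (n + 1), ∑ g ∈ Finset.range (n + 1),
      if h : 1 ≤ R ∧ g + 2 * R ≤ n then
      (if m ≤ R ∧ wd (ext w) ((n - g - 2 * R : ℕ) : ℤ) (2 * R) ∈ MW H R then
        Real.exp (γ * R) * V H m γ (ext w) (n - g - 2 * R) else 0)
      else 0 := fun w _ => by rw [V]
  rw [Finset.sum_congr rfl e1, Finset.sum_add_distrib]
  refine add_le_add ?_ ?_
  · rw [Finset.sum_const, nsmul_eq_mul, mul_one, ← Set.ncard_eq_toFinset_card]
  · rw [Finset.sum_comm]
    refine Finset.sum_le_sum fun R _ => ?_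
    rw [Finset.sum_comm]
    refine Finset.sum_le_sum fun g _ => ?_
    by_cases hc : 1 ≤ R ∧ g + 2 * R ≤ n ∧ m ≤ R
    · obtain ⟨hc1, hc2, hc3⟩ := hc
      rw [if_pos ⟨hc1, hc2, hc3⟩]
      obtain ⟨s, hs⟩ : ∃ s : ℕ, n = s + 2 * R + g := ⟨n - g - 2 * R, by omega⟩
      have hs' : n - g - 2 * R = s := by omega
      have hsn : s < n := by omega
      simp only [hs', dif_pos (And.intro hc1 hc2)]
      have e2 : ∀ w : Fin n → Bool,
          (if m ≤ R ∧ wd (ext w) (s : ℤ) (2 * R) ∈ MW H R then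
            Real.exp (γ * R) * V H m γ (ext w) s else 0) =
          Real.exp (γ * R) * (if wd (ext w) (s : ℤ) (2 * R) ∈ MW H R then
            V H m γ (ext w) s else 0) := by
        intro w
        by_cases h : wd (ext w) (s : ℤ) (2 * R) ∈ MW H R
        · rw [if_pos ⟨hc3, h⟩, if_pos h]
        · rw [if_neg (fun h' => h h'.2), if_neg h, mul_zero]
      rw [Finset.sum_congr rfl (fun w _ => e2 w), ← Finset.mul_sum]
      refine mul_le_mul_of_nonneg_left ?_ (Real.exp_pos _).le
      rw [← Finset.sum_filter]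
      set S := (Set.toFinite (Lg H n)).toFinset.filter
        (fun w => wd (ext w) (s : ℤ) (2 * R) ∈ MW H R) with hS
      set φ : (Fin n → Bool) → (Fin s → Bool) × ((Fin (2 * R) → Bool) × (Fin g → Bool)) :=
        fun w => (wd (ext w) 0 s, (wd (ext w) (s : ℤ) (2 * R), wd (ext w) ((s : ℤ) + 2 * R) g))
        with hφ
      have hinj : Set.InjOn φ (S : Set (Fin n → Bool)) := by
        intro w _ w' _ hww
        simp only [hφ, Prod.mk.injEq] at hww
        obtain ⟨h1, h2, h3⟩ := hww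
        rw [← wd_ext w, ← wd_ext w']
        funext i
        have hi := i.2
        simp only [wd, zero_add]
        by_cases c1 : (i : ℕ) < s
        · have := congrFun h1 ⟨i, c1⟩
          simpa only [wd, zero_add] using this
        · by_cases c2 : (i : ℕ) < s + 2 * R
          · have := congrFun h2 ⟨i - s, by omega⟩
            simp only [wd] at this
            have e : (s : ℤ) + ((i - s : ℕ) : ℤ) = (i : ℕ) := by omega
            rwa [e] at this
          · have := congrFun h3 ⟨i - (s + 2 * R), by omega⟩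
            simp only [wd] at this
            have e : (s : ℤ) + 2 * R + ((i - (s + 2 * R) : ℕ) : ℤ) = (i : ℕ) := by omega
            rwa [e] at this
      have e3 : ∑ w ∈ S, V H m γ (ext w) s = ∑ x ∈ S.image φ, V H m γ (ext x.1) s := by
        rw [Finset.sum_image hinj]
        refine Finset.sum_congr rfl fun w _ => ?_
        simp only [hφ]
        refine V_congr _ _ _ _ _ _ fun t h0 h1 => ?_
        exact (ext_wd _ _ _ h0 h1).symm
      rw [e3]
      have hsub : S.image φ ⊆ (Set.toFinite (Lg H s)).toFinset ×ˢ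
          ((Set.toFinite (MW H R)).toFinset ×ˢ (Set.toFinite (Lg H g)).toFinset) := by
        intro x hx
        rw [Finset.mem_image] at hx
        obtain ⟨w, hw, rfl⟩ := hx
        rw [hS, Finset.mem_filter, Set.Finite.mem_toFinset] at hw
        obtain ⟨⟨u, hu, huw⟩, hw2⟩ := hw
        have hag : ∀ t : ℤ, 0 ≤ t → t < n → ext w t = u t := by
          intro t h0 h1
          rw [← huw]; exact ext_wd u n t h0 h1
        simp only [hφ, Finset.mem_product, Set.Finite.mem_toFinset]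
        refine ⟨?_, hw2, ?_⟩
        · rw [wd_congr (ext w) u 0 s fun t h0 h1 => hag t h0 (by omega)]
          exact wd_mem H u _ _ hu
        · rw [wd_congr (ext w) u _ g fun t h0 h1 => hag t (by omega) (by omega)]
          exact wd_mem H u _ _ hu
      refine (Finset.sum_le_sum_of_subset_of_nonneg hsub
        fun _ _ _ => V_nonneg _ _ _ _ _).trans ?_
      rw [Finset.sum_product]
      simp only [Finset.sum_const, Finset.card_product, nsmul_eq_mul]
      rw [← Finset.mul_sum, ← Set.ncard_eq_toFinset_card, ← Set.ncard_eq_toFinset_card]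
      push_cast
      have key : ∀ a b Z : ℝ, a * b * Z ≤ Z * a * b := fun a b Z => le_of_eq (by ring)
      exact key _ _ _
    · rw [if_neg hc]
      refine le_of_eq (Finset.sum_eq_zero fun w _ => ?_)
      by_cases h1 : 1 ≤ R ∧ g + 2 * R ≤ n
      · rw [dif_pos h1, if_neg (fun h => hc ⟨h1.1, h1.2, h.1⟩)]
      · rw [dif_neg h1]

end R952.BK
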