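import Pool.Agent.R952.BK.Defs

set_option autoImplicit false

/-!
# Vitali selection of disjoint windows (helper916)
-/

namespace R952.BK

open Set Metric

/-- disjoint windows -/
def Dj (a b : ℕ × ℕ) : Prop := a.1 + 2 * a.2 ≤ b.1 ∨ b.1 + 2 * b.2 ≤ a.1

theorem vit : ∀ (n : ℕ) (W : Finset (ℕ × ℕ)), W.card ≤ n → (∀ w ∈ W, 1 ≤ w.2) →
    ∃ F ⊆ W, (∀ a ∈ F, ∀ b ∈ F, a ≠ b → Dj a b) ∧ ∀ w ∈ W, ∃ f ∈ F, w.2 ≤ f.2 ∧ ¬ Dj w f := by
  classical
  intro n
  induction n with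
  | zero =>
    intro W hW _
    have : W = ∅ := Finset.card_eq_zero.mp (by omega)
    subst this
    exact ⟨∅, Finset.Subset.refl _, by simp, by simp⟩
  | succ n ih =>
    intro W hW h1
    rcases W.eq_empty_or_nonempty with rfl | hne
    · exact ⟨∅, Finset.Subset.refl _, by simp, by simp⟩
    obtain ⟨f0, hf0, hmax⟩ := W.exists_max_image (fun w => w.2) hne
    have hlt : (W.filter (fun w => Dj w f0)).card < W.card := by
      apply Finset.card_lt_card
      rw [Finset.ssubset_iff_of_subset (Finset.filter_subset _ _)]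
      refine ⟨f0, hf0, ?_⟩
      rw [Finset.mem_filter]
      rintro ⟨_, h2⟩
      have := h1 f0 hf0
      unfold Dj at h2
      omega
    obtain ⟨F, hFW, hF1, hF2⟩ := ih (W.filter (fun w => Dj w f0)) (by omega)
      (fun w hw => h1 w (Finset.mem_of_mem_filter w hw))
    refine ⟨insert f0 F, ?_, ?_, ?_⟩
    · intro w hw
      rcases Finset.mem_insert.mp hw with rfl | hw
      · exact hf0
      · exact Finset.mem_of_mem_filter w (hFW hw)
    · intro a ha b hb hab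
      rcases Finset.mem_insert.mp ha with ha' | ha' <;>
        rcases Finset.mem_insert.mp hb with hb' | hb'
      · exact absurd (ha'.trans hb'.symm) hab
      · have := (Finset.mem_filter.mp (hFW hb')).2
        rw [ha']
        unfold Dj at this ⊢
        omega
      · rw [hb']
        exact (Finset.mem_filter.mp (hFW ha')).2
      · exact hF1 a ha' b hb' hab
    · intro w hw
      by_cases hd : Dj w f0
      · obtain ⟨f, hf, h2⟩ := hF2 w (Finset.mem_filter.mpr ⟨hw, hd⟩)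
        exact ⟨f, Finset.mem_insert_of_mem hf, h2⟩
      · exact ⟨f0, Finset.mem_insert_self _ _, hmax w hw, hd⟩

theorem select (H : Set (ℝ × ℝ)) (M L : ℕ) (hM : 2 ≤ M) (C : ℕ) :
    ∃ C' : ℝ, ∀ (u : Seq) (N : ℕ), (bad H M L u N : ℝ) ≤ N / 4 + C →
    ∃ F : Finset (ℕ × ℕ),
      (∀ a ∈ F, M - 1 ≤ a.2 ∧ a.1 + 2 * a.2 ≤ N ∧
        dd H u ((a.1 : ℤ) + a.2 - 1) < 2 * (1 / 2 : ℝ) ^ a.2) ∧
      (∀ a ∈ F, ∀ b ∈ F, a ≠ b → a.1 + 2 * a.2 ≤ b.1 ∨ b.1 + 2 * b.2 ≤ a.1) ∧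
      (N : ℝ) / 20 - C' ≤ ∑ a ∈ F, (a.2 : ℝ) := by
  classical
  refine ⟨C + 4 * L + 4 * M, fun u N hbad => ?_⟩
  set W : Finset (ℕ × ℕ) := ((Finset.range (N + 1)) ×ˢ (Finset.range (N + 1))).filter
    (fun a => M - 1 ≤ a.2 ∧ a.1 + 2 * a.2 ≤ N ∧
      dd H u ((a.1 : ℤ) + a.2 - 1) < 2 * (1 / 2 : ℝ) ^ a.2) with hW
  obtain ⟨F, hFW, hF1, hF2⟩ := vit W.card W le_rfl (fun w hw => by
    have := (Finset.mem_filter.mp hw).2.1
    omega)
  refine ⟨F, fun a ha => (Finset.mem_filter.mp (hFW ha)).2, hF1, ?_⟩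
  -- good times
  set Bd : Finset ℕ := (Finset.range N).filter (fun t : ℕ => ¬ ∃ k : ℤ, (k - (t : ℤ)).natAbs ≤ L ∧
    dd H u k < 2 * (1 / 2 : ℝ) ^ (M - 1 + (k - (t : ℤ)).natAbs)) with hBd
  have hbadeq : bad H M L u N = Bd.card := by
    unfold bad
    rw [hBd]
  set Mid : Finset ℕ := Finset.Ico (2 * L + 2 * M) (N - (2 * L + 2 * M)) with hMid
  set Gd : Finset ℕ := Mid \ Bd with hGd
  have hcard : N ≤ Gd.card + Bd.card + (4 * L + 4 * M) := by
    have h1 : Mid.card ≤ Gd.card + Bd.card := by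
      have := Finset.card_le_card_sdiff_add_card (s := Mid) (t := Bd)
      omega
    have h2 : Mid.card = N - (2 * L + 2 * M) - (2 * L + 2 * M) := Nat.card_Ico _ _
    omega
  have hcov : Gd ⊆ F.biUnion (fun f => Finset.Ico (f.1 - 2 * f.2) (f.1 + 4 * f.2)) := by
    intro t ht
    obtain ⟨ht1, ht2⟩ := Finset.mem_sdiff.mp ht
    rw [hMid, Finset.mem_Ico] at ht1
    have ht3 : ∃ k : ℤ, (k - (t : ℤ)).natAbs ≤ L ∧
        dd H u k < 2 * (1 / 2 : ℝ) ^ (M - 1 + (k - (t : ℤ)).natAbs) := by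
      by_contra hcon
      apply ht2
      rw [hBd, Finset.mem_filter, Finset.mem_range]
      exact ⟨by omega, hcon⟩
    obtain ⟨k, hk1, hk2⟩ := ht3
    set R : ℕ := M - 1 + (k - (t : ℤ)).natAbs with hR
    obtain ⟨s, hs⟩ : ∃ s : ℕ, (s : ℤ) = k - R + 1 := by
      have : 0 ≤ k - R + 1 := by omega
      exact ⟨(k - R + 1).toNat, by omega⟩
    have hwW : (s, R) ∈ W := by
      rw [hW, Finset.mem_filter, Finset.mem_product, Finset.mem_range, Finset.mem_range]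
      refine ⟨⟨?_, ?_⟩, ?_, ?_, ?_⟩
      · show s < N + 1
        omega
      · show R < N + 1
        omega
      · show M - 1 ≤ R
        omega
      · show s + 2 * R ≤ N
        omega
      · show dd H u ((s : ℤ) + R - 1) < 2 * (1 / 2 : ℝ) ^ R
        have : (s : ℤ) + R - 1 = k := by omega
        rw [this]; exact hk2
    obtain ⟨f, hf, hf1, hf2⟩ := hF2 _ hwW
    rw [Finset.mem_biUnion]
    refine ⟨f, hf, ?_⟩
    rw [Finset.mem_Ico]
    unfold Dj at hf2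
    simp only at hf1 hf2
    omega
  have hsum : Gd.card ≤ ∑ f ∈ F, 6 * f.2 := by
    refine (Finset.card_le_card hcov).trans (Finset.card_biUnion_le.trans ?_)
    apply Finset.sum_le_sum
    intro f _
    rw [Nat.card_Ico]
    omega
  have h1 : (N : ℝ) ≤ (Gd.card : ℝ) + Bd.card + (4 * L + 4 * M) := by exact_mod_cast hcard
  have h2 : (Gd.card : ℝ) ≤ 6 * ∑ f ∈ F, (f.2 : ℝ) := by
    rw [Finset.mul_sum]
    exact_mod_cast hsum
  rw [hbadeq] at hbad
  have h3 : (0 : ℝ) ≤ L := Nat.cast_nonneg _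
  have h4 : (0 : ℝ) ≤ M := Nat.cast_nonneg _
  have h5 : (0 : ℝ) ≤ C := Nat.cast_nonneg _
  have h6 : (0 : ℝ) ≤ N := Nat.cast_nonneg _
  linarith

end R952.BK
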