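import Pool.Agent.R952.BK.Grow

set_option autoImplicit false

namespace R952.BK
open Set Metric Filter Topology

theorem Lg_mul (H : Set (ℝ × ℝ)) (a b : ℕ) :
    (Lg H (a + b)).ncard ≤ (Lg H a).ncard * (Lg H b).ncard := by
  rw [← Set.ncard_prod]
  refine Set.ncard_le_ncard_of_injOn
    (fun w => (wd (ext w) 0 a, wd (ext w) (a : ℤ) b)) ?_ ?_ (Set.toFinite _)
  · rintro w ⟨u, hu, huw⟩
    have hag : ∀ t : ℤ, 0 ≤ t → t < (a + b : ℕ) → ext w t = u t := by
      intro t h0 h1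
      rw [← huw]; exact ext_wd u _ t h0 h1
    refine Set.mk_mem_prod ?_ ?_
    · rw [wd_congr (ext w) u 0 a fun t h0 h1 => hag t h0 (by push_cast; omega)]
      exact wd_mem H u _ _ hu
    · rw [wd_congr (ext w) u _ b fun t h0 h1 => hag t (by omega) (by push_cast; omega)]
      exact wd_mem H u _ _ hu
  · intro w _ w' _ hww
    simp only [Prod.mk.injEq] at hww
    obtain ⟨h1, h2⟩ := hww
    rw [← wd_ext w, ← wd_ext w']
    funext i
    have hi := i.2
    simp only [wd, zero_add]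
    by_cases c1 : (i : ℕ) < a
    · have := congrFun h1 ⟨i, c1⟩
      simpa only [wd, zero_add] using this
    · have := congrFun h2 ⟨i - a, by omega⟩
      simp only [wd] at this
      have e : (a : ℤ) + ((i - a : ℕ) : ℤ) = (i : ℕ) := by omega
      rwa [e] at this

theorem Lg_le (H : Set (ℝ × ℝ)) (n : ℕ) : (Lg H n).ncard ≤ 2 ^ n := by
  have h := Set.ncard_le_ncard (Set.subset_univ (Lg H n)) (Set.toFinite _)
  rw [Set.ncard_univ, Nat.card_eq_fintype_card] at h
  simpa using h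

theorem Lg_pos (H : Set (ℝ × ℝ)) (hne : (Surv H).Nonempty) (n : ℕ) : 1 ≤ (Lg H n).ncard := by
  obtain ⟨u, hu⟩ := hne
  rw [Nat.one_le_iff_ne_zero, Ne, Set.ncard_eq_zero (Set.toFinite _)]
  exact Set.Nonempty.ne_empty ⟨wd u 0 n, u, hu, rfl⟩

/-- the growth of the total weight -/
theorem A_le (H : Set (ℝ × ℝ)) (hmc : ∀ R, (MW H R).ncard ≤ 32 * (Lg H R).ncard)
    (c ε K γ s0 : ℝ) (hc : 0 < c) (hε : 0 < ε) (hK : 1 ≤ K) (hγ : γ = c / 2)
    (hs : s0 = c + 2 * ε)
    (hp : ∀ n : ℕ, ((Lg H n).ncard : ℝ) ≤ K * Real.exp ((c + ε) * n)) (m : ℕ)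
    (hm : 64 * K ^ 2 * (Real.exp (-c / 2 - 3 * ε) ^ m / (1 - Real.exp (-c / 2 - 3 * ε)) *
      (1 / (1 - Real.exp (-ε)))) ≤ 1) (n : ℕ) :
    A H m γ n ≤ 2 * K * Real.exp (s0 * n) := by
  classical
  have hK0 : 0 < K := by linarith
  set ρ := Real.exp (-c / 2 - 3 * ε) with hρ
  set τ := Real.exp (-ε) with hτ
  have hρ0 : 0 < ρ := Real.exp_pos _
  have hτ0 : 0 < τ := Real.exp_pos _
  have hρ1 : ρ < 1 := by rw [hρ, Real.exp_lt_one_iff]; linarith
  have hτ1 : τ < 1 := by rw [hτ, Real.exp_lt_one_iff]; linarith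
  induction n using Nat.strong_induction_on with
  | _ n ih =>
    refine (A_rec H m γ n).trans ?_
    have hterm : ∀ R ∈ Finset.range (n + 1), ∀ g ∈ Finset.range (n + 1),
        (if 1 ≤ R ∧ g + 2 * R ≤ n ∧ m ≤ R then
        Real.exp (γ * R) * (A H m γ (n - g - 2 * R) * (MW H R).ncard * (Lg H g).ncard)
        else 0) ≤ (64 * K ^ 3 * Real.exp (s0 * n)) * ((if m ≤ R then ρ ^ R else 0) * τ ^ g) := by
      intro R _ g _
      by_cases h1 : 1 ≤ R ∧ g + 2 * R ≤ n ∧ m ≤ R
      · obtain ⟨hR1, hR2, hR3⟩ := h1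
        rw [if_pos ⟨hR1, hR2, hR3⟩, if_pos hR3]
        obtain ⟨s, hs'⟩ : ∃ s : ℕ, n = s + 2 * R + g := ⟨n - g - 2 * R, by omega⟩
        have e : n - g - 2 * R = s := by omega
        rw [e]
        have i1 := ih s (by omega)
        have i2 : ((MW H R).ncard : ℝ) ≤ 32 * (K * Real.exp ((c + ε) * R)) := by
          have : ((MW H R).ncard : ℝ) ≤ 32 * (Lg H R).ncard := by exact_mod_cast hmc R
          linarith [hp R]
        have i3 := hp g
        have hA0 := A_nonneg H m γ s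
        calc Real.exp (γ * R) * (A H m γ s * (MW H R).ncard * (Lg H g).ncard)
            ≤ Real.exp (γ * R) * ((2 * K * Real.exp (s0 * s)) * (32 * (K * Real.exp ((c + ε) * R)))
              * (K * Real.exp ((c + ε) * g))) := by
              refine mul_le_mul_of_nonneg_left ?_ (Real.exp_pos _).le
              refine mul_le_mul (mul_le_mul i1 i2 (Nat.cast_nonneg _) (by positivity)) i3
                (Nat.cast_nonneg _) (by positivity)
          _ = (64 * K ^ 3) * (Real.exp (γ * R) * Real.exp (s0 * s) * Real.exp ((c + ε) * R) *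
              Real.exp ((c + ε) * g)) := by ring
          _ = (64 * K ^ 3 * Real.exp (s0 * n)) * (ρ ^ R * τ ^ g) := by
              rw [hρ, hτ, ← Real.exp_nat_mul, ← Real.exp_nat_mul, ← Real.exp_add, ← Real.exp_add,
                ← Real.exp_add, mul_assoc (64 * K ^ 3), ← Real.exp_add, ← Real.exp_add]
              congr 2
              rw [hγ, hs, hs']
              push_cast
              ring
      · rw [if_neg h1]
        split_ifs <;> positivity
    have hsum := Finset.sum_le_sum fun R hR => Finset.sum_le_sum fun g hg => hterm R hR g hg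
    have hfac : ∑ R ∈ Finset.range (n + 1), ∑ g ∈ Finset.range (n + 1),
        (64 * K ^ 3 * Real.exp (s0 * n)) * ((if m ≤ R then ρ ^ R else 0) * τ ^ g) =
        (64 * K ^ 3 * Real.exp (s0 * n)) * ((∑ R ∈ Finset.range (n + 1),
          (if m ≤ R then ρ ^ R else 0)) * (∑ g ∈ Finset.range (n + 1), τ ^ g)) := by
      rw [Finset.sum_mul_sum, Finset.mul_sum]
      refine Finset.sum_congr rfl fun R _ => ?_
      rw [Finset.mul_sum]
    rw [hfac] at hsum
    have g1 : ∑ R ∈ Finset.range (n + 1), (if m ≤ R then ρ ^ R else 0) ≤ ρ ^ m / (1 - ρ) := by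
      rw [← Finset.sum_filter]
      have : (Finset.range (n + 1)).filter (fun R => m ≤ R) = Finset.Ico m (n + 1) := by
        ext x; simp only [Finset.mem_filter, Finset.mem_range, Finset.mem_Ico]; omega
      rw [this]
      exact geom_sum_Ico_le_of_lt_one hρ0.le hρ1
    have g2 : ∑ g ∈ Finset.range (n + 1), τ ^ g ≤ 1 / (1 - τ) := by
      have h := geom_sum_Ico_le_of_lt_one (m := 0) (n := n + 1) hτ0.le hτ1
      rw [pow_zero] at h
      rwa [Finset.range_eq_Ico]
    have g3 : (∑ R ∈ Finset.range (n + 1), (if m ≤ R then ρ ^ R else 0)) *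
        (∑ g ∈ Finset.range (n + 1), τ ^ g) ≤ ρ ^ m / (1 - ρ) * (1 / (1 - τ)) := by
      refine mul_le_mul g1 g2 (Finset.sum_nonneg fun _ _ => by positivity) ?_
      exact div_nonneg (by positivity) (by linarith)
    have g4 : (64 * K ^ 3 * Real.exp (s0 * n)) * (ρ ^ m / (1 - ρ) * (1 / (1 - τ))) ≤
        K * Real.exp (s0 * n) := by
      calc (64 * K ^ 3 * Real.exp (s0 * n)) * (ρ ^ m / (1 - ρ) * (1 / (1 - τ)))
          = (K * Real.exp (s0 * n)) * (64 * K ^ 2 * (ρ ^ m / (1 - ρ) * (1 / (1 - τ)))) := by ring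
        _ ≤ (K * Real.exp (s0 * n)) * 1 := mul_le_mul_of_nonneg_left hm (by positivity)
        _ = _ := mul_one _
    have g5 : ((Lg H n).ncard : ℝ) ≤ K * Real.exp (s0 * n) := by
      refine (hp n).trans (mul_le_mul_of_nonneg_left (Real.exp_le_exp.2 ?_) hK0.le)
      rw [hs]
      nlinarith [(Nat.cast_nonneg n : (0 : ℝ) ≤ n)]
    have g6 := mul_le_mul_of_nonneg_left g3 (show (0 : ℝ) ≤ 64 * K ^ 3 * Real.exp (s0 * n) by
      positivity)
    linarith

/-- the growth of the number of words is subexponential -/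
theorem subexp (H : Set (ℝ × ℝ)) (hmc : ∀ R, (MW H R).ncard ≤ 32 * (Lg H R).ncard)
    (hsel : ∀ m : ℕ, 1 ≤ m → ∃ C' : ℝ, ∀ (u : Seq) (N : ℕ), ∃ F : Finset (ℕ × ℕ),
      (∀ a ∈ F, m ≤ a.2 ∧ a.1 + 2 * a.2 ≤ N ∧
        dd H u ((a.1 : ℤ) + a.2 - 1) < 2 * (1 / 2 : ℝ) ^ a.2) ∧
      (∀ a ∈ F, ∀ b ∈ F, a ≠ b → a.1 + 2 * a.2 ≤ b.1 ∨ b.1 + 2 * b.2 ≤ a.1) ∧
      (N : ℝ) / 20 - C' ≤ ∑ a ∈ F, (a.2 : ℝ)) (δ : ℝ) (hδ : 0 < δ) :
    ∀ᶠ n : ℕ in atTop, ((Lg H n).ncard : ℝ) ≤ Real.exp (δ * n) := by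
  classical
  by_cases hne : (Surv H).Nonempty
  swap
  · refine Eventually.of_forall fun n => ?_
    have : Lg H n = ∅ := by
      rw [Set.eq_empty_iff_forall_notMem]
      rintro w ⟨u, hu, _⟩
      exact hne ⟨u, hu⟩
    rw [this, Set.ncard_empty, Nat.cast_zero]
    exact (Real.exp_pos _).le
  have hp1 : ∀ n, (1 : ℝ) ≤ (Lg H n).ncard := fun n => by exact_mod_cast Lg_pos H hne n
  have hsub : Subadditive (fun n : ℕ => Real.log ((Lg H n).ncard : ℝ)) := by
    intro a b
    dsimp only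
    rw [← Real.log_mul (by linarith [hp1 a]) (by linarith [hp1 b])]
    refine Real.log_le_log (by linarith [hp1 (a + b)]) ?_
    exact_mod_cast Lg_mul H a b
  have hbdd : BddBelow (Set.range fun n : ℕ => Real.log ((Lg H n).ncard : ℝ) / n) := by
    refine ⟨0, ?_⟩
    rintro _ ⟨n, rfl⟩
    exact div_nonneg (Real.log_nonneg (hp1 n)) (Nat.cast_nonneg _)
  have hlim := hsub.tendsto_lim hbdd
  have hle : ∀ n : ℕ, n ≠ 0 → hsub.lim ≤ Real.log ((Lg H n).ncard : ℝ) / n :=
    fun n hn => hsub.lim_le_div hbdd hn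
  set c := hsub.lim with hc
  have key : c ≤ 0 := by
    by_contra hcon
    push Not at hcon
    -- constants
    set ε := c / 160 with hε
    have hε0 : 0 < ε := by positivity
    have hev : ∀ᶠ n : ℕ in atTop, Real.log ((Lg H n).ncard : ℝ) / n < c + ε :=
      hlim.eventually_lt_const (by linarith)
    obtain ⟨n0, hn0⟩ := eventually_atTop.1 (hev.and (eventually_gt_atTop 0))
    set K : ℝ := 2 ^ n0 with hK
    have hK1 : 1 ≤ K := one_le_pow₀ (by norm_num)
    have hp : ∀ n : ℕ, ((Lg H n).ncard : ℝ) ≤ K * Real.exp ((c + ε) * n) := by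
      intro n
      by_cases hn : n0 ≤ n
      · obtain ⟨h1, h2⟩ := hn0 n hn
        have hn' : (0 : ℝ) < n := by exact_mod_cast h2
        rw [div_lt_iff₀ hn'] at h1
        have h3 : ((Lg H n).ncard : ℝ) ≤ Real.exp ((c + ε) * n) := by
          rw [← Real.log_le_iff_le_exp (by linarith [hp1 n])]
          exact h1.le
        nlinarith [Real.exp_pos ((c + ε) * n)]
      · push Not at hn
        have h1 : ((Lg H n).ncard : ℝ) ≤ 2 ^ n := by exact_mod_cast Lg_le H n
        have h2 : (2 : ℝ) ^ n ≤ K := pow_le_pow_right₀ (by norm_num) hn.le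
        have h3 : 1 ≤ Real.exp ((c + ε) * n) := Real.one_le_exp (by positivity)
        nlinarith
    have hlow : ∀ n : ℕ, Real.exp (c * n) ≤ (Lg H n).ncard := by
      intro n
      rcases Nat.eq_zero_or_pos n with h0 | h0
      · rw [h0]; simpa using hp1 0
      · have h1 := hle n h0.ne'
        have hn' : (0 : ℝ) < n := by exact_mod_cast h0
        rw [le_div_iff₀ hn'] at h1
        rwa [← Real.le_log_iff_exp_le (by linarith [hp1 n])]
    set ρ := Real.exp (-c / 2 - 3 * ε) with hρ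
    set τ := Real.exp (-ε) with hτ
    have hρ0 : 0 < ρ := Real.exp_pos _
    have hρ1 : ρ < 1 := by rw [hρ, Real.exp_lt_one_iff]; linarith
    have hτ1 : τ < 1 := by rw [hτ, Real.exp_lt_one_iff]; linarith
    obtain ⟨m, hm1, hm⟩ : ∃ m : ℕ, 1 ≤ m ∧
        64 * K ^ 2 * (ρ ^ m / (1 - ρ) * (1 / (1 - τ))) ≤ 1 := by
      have ht : Tendsto (fun m : ℕ => 64 * K ^ 2 * (ρ ^ m / (1 - ρ) * (1 / (1 - τ)))) atTop
          (𝓝 (64 * K ^ 2 * (0 / (1 - ρ) * (1 / (1 - τ))))) :=
        (((tendsto_pow_atTop_nhds_zero_of_lt_one hρ0.le hρ1).div_const _).mul_const _).const_mul _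
      rw [zero_div, zero_mul, mul_zero] at ht
      obtain ⟨m, hm⟩ := ((ht.eventually_le_const zero_lt_one).and
        (eventually_ge_atTop 1)).exists
      exact ⟨m, hm.2, hm.1⟩
    obtain ⟨C', hC'⟩ := hsel m hm1
    have hA := A_le H hmc c ε K (c / 2) (c + 2 * ε) hcon hε0 hK1 rfl rfl hp m hm
    have hAl : ∀ N : ℕ, ((Lg H N).ncard : ℝ) * Real.exp (c / 2 * (N / 20 - C')) ≤
        A H m (c / 2) N := by
      intro N
      unfold A
      rw [Set.ncard_eq_toFinset_card _ (Set.toFinite (Lg H N)), ← nsmul_eq_mul,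
        ← Finset.sum_const]
      refine Finset.sum_le_sum fun w hw => ?_
      rw [Set.Finite.mem_toFinset] at hw
      obtain ⟨u, hu, huw⟩ := hw
      obtain ⟨F, hF1, hF2, hF3⟩ := hC' u N
      have h1 := V_ge H m hm1 (c / 2) u F.card N F rfl
        (fun a ha => ⟨(hF1 a ha).1, (hF1 a ha).2.1, wd_MW H u a.1 a.2 hu (hF1 a ha).2.2⟩) hF2
      have h2 : V H m (c / 2) (ext w) N = V H m (c / 2) u N := by
        refine V_congr _ _ _ _ _ _ fun t h0 h1 => ?_
        rw [← huw]; exact ext_wd u _ t h0 h1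
      rw [h2]
      refine le_trans (Real.exp_le_exp.2 ?_) h1
      exact mul_le_mul_of_nonneg_left hF3 (by linarith)
    -- contradiction
    obtain ⟨N, hN⟩ := exists_nat_gt ((Real.log (2 * K) + c / 2 * C') / (c / 80))
    rw [div_lt_iff₀ (by positivity)] at hN
    have h1 := (mul_le_mul_of_nonneg_right (hlow N)
      (Real.exp_pos (c / 2 * (N / 20 - C'))).le).trans ((hAl N).trans (hA N))
    have hK2 : (2 * K) = Real.exp (Real.log (2 * K)) := (Real.exp_log (by positivity)).symm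
    rw [hK2, ← Real.exp_add, ← Real.exp_add, Real.exp_le_exp] at h1
    have h2 : c * N + c / 2 * (N / 20 - C') = (c + 2 * ε) * N + (N * (c / 80) - c / 2 * C') := by
      rw [hε]; ring
    rw [h2] at h1
    linarith
  have hev : ∀ᶠ n : ℕ in atTop, Real.log ((Lg H n).ncard : ℝ) / n < δ :=
    hlim.eventually_lt_const (by linarith)
  filter_upwards [hev, eventually_gt_atTop 0] with n h1 h2
  have hn' : (0 : ℝ) < n := by exact_mod_cast h2
  rw [div_lt_iff₀ hn'] at h1
  rw [← Real.log_le_iff_le_exp (by linarith [hp1 n])]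
  exact h1.le

end R952.BK
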