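import Pool.Agent.R952.BK.Defs

set_option autoImplicit false

/-!
# Uniform covering by compactness (helper916)
-/

namespace R952.BK

open Set Metric Topology

theorem cont_fx : Continuous fx := by
  unfold fx
  apply continuous_tsum (u := fun n : ℕ => (1 / 2 : ℝ) ^ (n + 1))
  · intro n
    have h : Continuous (fun b : Bool => if b then (1 / 2 : ℝ) ^ (n + 1) else 0) :=
      continuous_of_discreteTopology
    exact h.comp (continuous_apply n)
  · have := (summable_geometric_of_lt_one (by norm_num : (0 : ℝ) ≤ 1 / 2) (by norm_num)).mul_right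
      (1 / 2 : ℝ)
    simpa only [pow_succ] using this
  · intro n a
    split_ifs
    · rw [Real.norm_eq_abs, abs_of_nonneg (by positivity)]
    · simp only [norm_zero]; positivity

theorem cont_dd (H : Set (ℝ × ℝ)) (k : ℤ) : Continuous (fun u : Seq => dd H u k) := by
  unfold dd
  refine (Metric.continuous_infDist_pt H).comp ?_
  unfold pr
  refine Continuous.prodMk ?_ ?_
  · refine cont_fx.comp ?_
    refine continuous_pi fun n => ?_
    exact continuous_apply _
  · refine cont_fx.comp ?_
    refine continuous_pi fun n => ?_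
    exact continuous_apply _

theorem dd_sh (H : Set (ℝ × ℝ)) (u : Seq) (a k : ℤ) : dd H (sh a u) k = dd H u (k + a) := by
  unfold dd
  congr 2
  funext n
  show u (n + k + a) = u (n + (k + a))
  rw [add_assoc]

/-- uncovered at level `L` -/
def Bd (H : Set (ℝ × ℝ)) (M L : ℕ) (u : Seq) (t : ℤ) : Prop :=
  ∀ k : ℤ, (k - t).natAbs ≤ L → 2 * (1 / 2 : ℝ) ^ (M - 1 + (k - t).natAbs) ≤ dd H u k

theorem Bd_mono (H : Set (ℝ × ℝ)) (M : ℕ) {L L' : ℕ} (h : L ≤ L') (u : Seq) (t : ℤ)
    (hb : Bd H M L' u t) : Bd H M L u t := fun k hk => hb k (hk.trans h)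

/-- among more than `4 ^ M` integers one is covered -/
theorem exists_cov (H : Set (ℝ × ℝ)) (hcl : Closing H) (M : ℕ) (hM : 1 ≤ M) (u : Seq)
    (S : Finset ℕ) (hS : 4 ^ M < S.card) :
    ∃ t ∈ S, ∃ k : ℤ, dd H u k ≤ (1 / 2 : ℝ) ^ (M - 1 + (k - (t : ℤ)).natAbs) := by
  classical
  -- pigeonhole
  obtain ⟨i, hi, j, hj, hij, hd⟩ : ∃ i ∈ S, ∃ j ∈ S, i < j ∧
      (fun s : Fin (2 * M) => u ((i : ℤ) + (s : ℕ) - M)) =
      (fun s : Fin (2 * M) => u ((j : ℤ) + (s : ℕ) - M)) := by
    have hc : (Finset.univ : Finset (Fin (2 * M) → Bool)).card < S.card := by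
      rw [Finset.card_univ, Fintype.card_fun, Fintype.card_bool, Fintype.card_fin, pow_mul]
      exact hS
    obtain ⟨i, hi, j, hj, hne, hd⟩ := Finset.exists_ne_map_eq_of_card_lt_of_maps_to hc
      (f := fun t : ℕ => (fun s : Fin (2 * M) => u ((t : ℤ) + (s : ℕ) - M)))
      (fun _ _ => Finset.mem_univ _)
    rcases lt_or_gt_of_ne hne with h | h
    · exact ⟨i, hi, j, hj, h, hd⟩
    · exact ⟨j, hj, i, hi, h, hd.symm⟩
  obtain ⟨k, hk1, hk2, hk3⟩ := hcl u i j M (by exact_mod_cast hij) (by
    intro s hs1 hs2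
    obtain ⟨s', hs'⟩ : ∃ s' : ℕ, (s' : ℤ) = s + M := ⟨(s + M).toNat, by omega⟩
    have h1 := congrFun hd ⟨s', by omega⟩
    simp only at h1
    have e1 : (i : ℤ) + (s' : ℤ) - M = i + s := by rw [hs']; ring
    have e2 : (j : ℤ) + (s' : ℤ) - M = j + s := by rw [hs']; ring
    rwa [e1, e2] at h1)
  rcases le_total (k - (i : ℤ)) ((j : ℤ) - 1 - k) with h | h
  · refine ⟨i, hi, k, hk3.trans ?_⟩
    rw [min_eq_left h]
    apply pow_le_pow_of_le_one (by norm_num) (by norm_num)
    omega
  · refine ⟨j, hj, k, hk3.trans ?_⟩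
    rw [min_eq_right h]
    apply pow_le_pow_of_le_one (by norm_num) (by norm_num)
    omega

/-- compactness for one set of times -/
theorem exists_L (H : Set (ℝ × ℝ)) (hcl : Closing H) (M : ℕ) (hM : 1 ≤ M)
    (S : Finset ℕ) (hS : 4 ^ M < S.card) : ∃ L : ℕ, ∀ u : Seq, ∃ t ∈ S, ¬ Bd H M L u t := by
  classical
  by_contra hcon
  push Not at hcon
  set V : ℕ → Set Seq := fun L => {u | ∀ t ∈ S, Bd H M L u t} with hV
  have hVc : ∀ L, IsClosed (V L) := by
    intro L
    have : V L = ⋂ t ∈ S, ⋂ k : ℤ, {u : Seq | (k - (t : ℤ)).natAbs ≤ L →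
        2 * (1 / 2 : ℝ) ^ (M - 1 + (k - (t : ℤ)).natAbs) ≤ dd H u k} := by
      ext u
      simp only [hV, Bd, mem_iInter, mem_ofPred_eq]
    rw [this]
    apply isClosed_biInter
    intro t _
    apply isClosed_iInter
    intro k
    by_cases hk : (k - (t : ℤ)).natAbs ≤ L
    · simp only [hk, forall_const]
      exact isClosed_le continuous_const (cont_dd H k)
    · simp only [hk, false_imp_iff]
      exact isClosed_univ
  have hne : (⋂ L, V L).Nonempty := by
    apply IsCompact.nonempty_iInter_of_directed_nonempty_isCompact_isClosed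
    · intro a b
      refine ⟨max a b, ?_, ?_⟩
      · intro u hu t ht
        exact Bd_mono H M (le_max_left _ _) u t (hu t ht)
      · intro u hu t ht
        exact Bd_mono H M (le_max_right _ _) u t (hu t ht)
    · intro L
      obtain ⟨u, hu⟩ := hcon L
      exact ⟨u, hu⟩
    · intro L
      exact (hVc L).isCompact
    · exact hVc
  obtain ⟨u, hu⟩ := hne
  obtain ⟨t, ht, k, hk⟩ := exists_cov H hcl M hM u S hS
  have h1 : Bd H M (k - (t : ℤ)).natAbs u t := by
    have := mem_iInter.mp hu (k - (t : ℤ)).natAbs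
    exact this t ht
  have h2 := h1 k le_rfl
  have h3 : (0 : ℝ) < (1 / 2 : ℝ) ^ (M - 1 + (k - (t : ℤ)).natAbs) := by positivity
  linarith

/-- in a block of length `T` at most `4 ^ M` times are uncovered -/
theorem block (H : Set (ℝ × ℝ)) (hcl : Closing H) (M : ℕ) (hM : 1 ≤ M) (T : ℕ) :
    ∃ L : ℕ, ∀ (u : Seq) (S : Finset ℕ), S ⊆ Finset.range T → (∀ t ∈ S, Bd H M L u t) →
      S.card ≤ 4 ^ M := by
  classical
  choose! f hf using exists_L H hcl M hM
  refine ⟨(Finset.powersetCard (4 ^ M + 1) (Finset.range T)).sup f, ?_⟩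
  intro u S hST hS
  by_contra hcon
  push Not at hcon
  obtain ⟨S', hS'S, hS'c⟩ := Finset.exists_subset_card_eq (show 4 ^ M + 1 ≤ S.card from hcon)
  obtain ⟨t, ht, hnb⟩ := hf S' (by omega) u
  apply hnb
  apply Bd_mono H M _ u t (hS t (hS'S ht))
  apply Finset.le_sup (f := f)
  rw [Finset.mem_powersetCard]
  exact ⟨hS'S.trans hST, hS'c⟩

theorem unif (H : Set (ℝ × ℝ)) (hcl : Closing H) (M : ℕ) (hM : 1 ≤ M) :
    ∃ L C : ℕ, ∀ (u : Seq) (N : ℕ), (bad H M L u N : ℝ) ≤ N / 4 + C := by
  classical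
  obtain ⟨L, hL⟩ := block H hcl M hM (4 * 4 ^ M)
  refine ⟨L, 4 ^ M, fun u N => ?_⟩
  set q : ℕ := 4 ^ M with hq
  have hq0 : 0 < q := by positivity
  have hbad : ∀ N, bad H M L u N =
      ((Finset.range N).filter (fun t : ℕ => Bd H M L u (t : ℤ))).card := by
    intro N
    unfold bad
    congr 1
    ext t
    rw [Finset.mem_filter, Finset.mem_filter]
    simp only [Bd, not_exists, not_and, not_lt]
  -- blocks
  have hblocks : ∀ m : ℕ, ((Finset.range (4 * q * m)).filter
      (fun t : ℕ => Bd H M L u (t : ℤ))).card ≤ q * m := by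
    intro m
    induction m with
    | zero => simp
    | succ m ih =>
      set S : Finset ℕ := (Finset.range (4 * q)).filter
        (fun t : ℕ => Bd H M L (sh ((4 * q * m : ℕ) : ℤ) u) (t : ℤ)) with hS
      have hSc : S.card ≤ q := by
        apply hL (sh ((4 * q * m : ℕ) : ℤ) u) S (Finset.filter_subset _ _)
        intro t ht
        exact (Finset.mem_filter.mp ht).2
      have hsub : (Finset.range (4 * q * (m + 1))).filter (fun t : ℕ => Bd H M L u (t : ℤ)) ⊆
          (Finset.range (4 * q * m)).filter (fun t : ℕ => Bd H M L u (t : ℤ)) ∪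
            S.image (fun t => t + 4 * q * m) := by
        intro t ht
        rw [Finset.mem_filter, Finset.mem_range] at ht
        rw [Finset.mem_union]
        by_cases h : t < 4 * q * m
        · left
          rw [Finset.mem_filter, Finset.mem_range]
          exact ⟨h, ht.2⟩
        · right
          rw [Finset.mem_image]
          refine ⟨t - 4 * q * m, ?_, by omega⟩
          rw [hS, Finset.mem_filter, Finset.mem_range]
          refine ⟨?_, ?_⟩
          · have e : 4 * q * (m + 1) = 4 * q * m + 4 * q := by ring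
            rw [e] at ht
            omega
          · intro k hk
            rw [dd_sh]
            have e1 : k - ((t - 4 * q * m : ℕ) : ℤ) = k + ((4 * q * m : ℕ) : ℤ) - (t : ℤ) := by
              omega
            rw [e1] at hk ⊢
            exact ht.2 _ hk
      refine (Finset.card_le_card hsub).trans ((Finset.card_union_le _ _).trans ?_)
      have h3 : (S.image (fun t => t + 4 * q * m)).card ≤ q := Finset.card_image_le.trans hSc
      have e : q * (m + 1) = q * m + q := by ring
      rw [e]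
      omega
  have hN : N ≤ 4 * q * (N / (4 * q) + 1) := by
    have := Nat.div_add_mod N (4 * q)
    have h2 := Nat.mod_lt N (show 0 < 4 * q by omega)
    have e : 4 * q * (N / (4 * q) + 1) = 4 * q * (N / (4 * q)) + 4 * q := by ring
    rw [e]
    omega
  have h1 : bad H M L u N ≤ q * (N / (4 * q) + 1) := by
    rw [hbad]
    refine le_trans (Finset.card_le_card ?_) (hblocks (N / (4 * q) + 1))
    apply Finset.filter_subset_filter
    exact Finset.range_subset_range.mpr hN
  have h2 : (bad H M L u N : ℝ) ≤ q * ((N / (4 * q) : ℕ) + 1) := by exact_mod_cast h1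
  have h3 : ((N / (4 * q) : ℕ) : ℝ) ≤ N / (4 * q) := by
    have := Nat.cast_div_le (α := ℝ) (m := N) (n := 4 * q)
    push_cast at this ⊢
    exact this
  have hq' : (0 : ℝ) < q := by exact_mod_cast hq0
  have h4 : (q : ℝ) * (N / (4 * q)) = N / 4 := by field_simp
  have h5 : (q : ℝ) * ((N / (4 * q) : ℕ) + 1) ≤ q * (N / (4 * q) + 1) :=
    mul_le_mul_of_nonneg_left (by linarith) hq'.le
  have h6 : (q : ℝ) * ((N : ℝ) / (4 * q) + 1) = N / 4 + q := by
    rw [mul_add, h4, mul_one]
  have h7 : ((4 ^ M : ℕ) : ℝ) = q := by rw [hq]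
  rw [h7]
  linarith

end R952.BK
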